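import Mathlib

/-!
# PHL, Defs: the definitions used in ParameterRange
-/

set_option autoImplicit false

namespace Pool.Agent.H81.PHL

/-- `Holds B α β ε`: the inequality of Q1 for all nonzero rationals `x, y` with
`x y^B ≠ 1` and `x y^B ≠ -1`, `S` being the set of primes dividing the numerator of `x y^B + 1`. -/
def Holds (B : ℕ) (α β ε : ℝ) : Prop :=
  ∀ x y : ℚ, x ≠ 0 → y ≠ 0 → x * y ^ B ≠ 1 → x * y ^ B ≠ -1 →
    -(∑ p ∈ (x * y ^ B + 1).num.natAbs.primeFactors,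
        Real.log ((padicNorm p (x * y ^ B + 1) : ℚ) : ℝ))
      ≤ α * (B : ℝ) * Real.log (max |((x.num : ℤ) : ℝ)| ((x.den : ℕ) : ℝ))
        + ε * (B : ℝ) * Real.log (max |((y.num : ℤ) : ℝ)| ((y.den : ℕ) : ℝ))
        + (B : ℝ) * (α * (B : ℝ) + ε) *
            (β + ∑ p ∈ (x * y ^ B + 1).num.natAbs.primeFactors, Real.log (p : ℝ))

/-- The abc inequality with exponent `κ`. -/
def AbcExp (κ : ℝ) : Prop :=
  ∃ K : ℝ, ∀ a b : ℕ, 0 < a → 0 < b → Nat.Coprime a b →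
    ((a + b : ℕ) : ℝ) ≤ K * ((∏ p ∈ (a * b * (a + b)).primeFactors, p : ℕ) : ℝ) ^ κ

/-- `L - α B h(x) - ε B h(y)`, with `L` the left side of the inequality of Q1. -/
noncomputable def gap (B : ℕ) (α ε : ℝ) (x y : ℚ) : ℝ :=
  -(∑ p ∈ (x * y ^ B + 1).num.natAbs.primeFactors,
      Real.log ((padicNorm p (x * y ^ B + 1) : ℚ) : ℝ))
    - α * (B : ℝ) * Real.log (max |((x.num : ℤ) : ℝ)| ((x.den : ℕ) : ℝ))
    - ε * (B : ℝ) * Real.log (max |((y.num : ℤ) : ℝ)| ((y.den : ℕ) : ℝ))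

end Pool.Agent.H81.PHL
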