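import Mathlib

/-!
# PHL, Ident: the Bezout type identity
-/

set_option autoImplicit false

namespace Pool.Agent.H81.PHL

/-- The coefficients. -/
def vv (m k : ℕ) : ℕ := (m - k) * Nat.choose (m - 1 + k) k

/-- The form `V`, of degree `m - 1` (`m = B - 1`). -/
def VV (m : ℕ) (p q : ℤ) : ℤ := ∑ k ∈ Finset.range m, (vv m k : ℤ) * p ^ k * (p + q) ^ (m - 1 - k)

/-- The recursion of the coefficients. -/
lemma vv_rec {m k : ℕ} (hm : 0 < m) (hk : k ≤ m) :
    (m : ℤ) * ((vv (m + 1) (k + 1) : ℤ) - (vv (m + 1) k : ℤ)) =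
      (m + 1 : ℤ) * ((m : ℤ) - (k + 1)) * Nat.choose (m - 1 + (k + 1)) (k + 1) := by
  obtain ⟨n, rfl⟩ : ∃ n, m = n + 1 := ⟨m - 1, by omega⟩
  unfold vv
  have e1 : n + 1 + 1 - 1 + (k + 1) = n + 1 + k + 1 := by omega
  have e2 : n + 1 + 1 - 1 + k = n + 1 + k := by omega
  have e3 : n + 1 - 1 + (k + 1) = n + k + 1 := by omega
  rw [e1, e2, e3]
  have e4 : ((n + 1 + 1 - (k + 1) : ℕ) : ℤ) = (n : ℤ) + 1 - k := by
    rw [Nat.cast_sub (by omega)]
    push_cast
    ring
  have e5 : ((n + 1 + 1 - k : ℕ) : ℤ) = (n : ℤ) + 2 - k := by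
    rw [Nat.cast_sub (by omega)]
    push_cast
    ring
  rw [Nat.cast_mul, Nat.cast_mul, e4, e5]
  -- C1 = choose (n+1+k+1) (k+1), C2 = choose (n+1+k) k, C3 = choose (n+k+1) (k+1)
  have h1 : Nat.choose (n + 1 + k + 1) (k + 1) = Nat.choose (n + 1 + k) k + Nat.choose (n + 1 + k) (k + 1) :=
    Nat.choose_succ_succ _ _
  have h2 : n + 1 + k = n + k + 1 := by ring
  have h3 : Nat.choose (n + k + 1) k * (n + 1) = Nat.choose (n + k + 1) (k + 1) * (k + 1) := by
    have := Nat.choose_succ_right_eq (n + k + 1) k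
    rw [this]
    congr 1
    omega
  rw [h1, h2]
  push_cast
  have h3' : (Nat.choose (n + k + 1) k : ℤ) * (n + 1) = Nat.choose (n + k + 1) (k + 1) * (k + 1) := by
    exact_mod_cast h3
  linear_combination (-1 : ℤ) * h3'

/-- One step. -/
lemma VV_step (n : ℕ) (p q : ℤ) :
    ((n : ℤ) + 1) * (VV (n + 2) p q * q) =
      ((n : ℤ) + 2) * ((p + q) ^ 2 * VV (n + 1) p q) -
        ((n : ℤ) + 1) * (vv (n + 2) (n + 1) : ℤ) * p ^ (n + 2) := by
  set s := p + q with hs
  have hq : q = s - p := by rw [hs]; ring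
  set f : ℕ → ℤ := fun k => (vv (n + 2) k : ℤ) with hf
  have h1 : VV (n + 2) p q = ∑ k ∈ Finset.range (n + 2), f k * p ^ k * s ^ (n + 1 - k) := rfl
  have h2 : VV (n + 2) p q * s = f 0 * s ^ (n + 2) +
      ∑ k ∈ Finset.range (n + 1), f (k + 1) * p ^ (k + 1) * s ^ (n + 1 - k) := by
    rw [h1, Finset.sum_mul, Finset.sum_range_succ']
    have e0 : f 0 * p ^ 0 * s ^ (n + 1 - 0) * s = f 0 * s ^ (n + 2) := by
      rw [Nat.sub_zero]
      ring
    rw [e0, add_comm]
    congr 1
    apply Finset.sum_congr rfl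
    intro k hk
    have hk' : k < n + 1 := Finset.mem_range.mp hk
    have e1 : n + 1 - k = (n + 1 - (k + 1)) + 1 := by omega
    rw [e1, pow_succ]
    ring
  have h3 : VV (n + 2) p q * p = (∑ k ∈ Finset.range (n + 1), f k * p ^ (k + 1) * s ^ (n + 1 - k)) +
      f (n + 1) * p ^ (n + 2) := by
    rw [h1, Finset.sum_mul, Finset.sum_range_succ]
    congr 1
    · apply Finset.sum_congr rfl
      intro k _
      ring
    · rw [Nat.sub_self]
      ring
  have h4 : ((n : ℤ) + 1) * ∑ k ∈ Finset.range (n + 1), (f (k + 1) - f k) * p ^ (k + 1) * s ^ (n + 1 - k) =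
      ((n : ℤ) + 2) * ∑ k ∈ Finset.range n, (vv (n + 1) (k + 1) : ℤ) * p ^ (k + 1) * s ^ (n + 1 - k) := by
    rw [Finset.sum_range_succ, mul_add, Finset.mul_sum, Finset.mul_sum]
    have hlast : ((n : ℤ) + 1) * ((f (n + 1) - f n) * p ^ (n + 1) * s ^ (n + 1 - n)) = 0 := by
      have h5 := vv_rec (m := n + 1) (k := n) (by omega) (by omega)
      push_cast at h5
      have h6 : ((n : ℤ) + 1) * (f (n + 1) - f n) = 0 := by
        rw [hf]
        simp only
        linear_combination h5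
      linear_combination (p ^ (n + 1) * s ^ (n + 1 - n)) * h6
    rw [hlast, add_zero]
    apply Finset.sum_congr rfl
    intro k hk
    have hk' : k < n := Finset.mem_range.mp hk
    have h5 := vv_rec (m := n + 1) (k := k) (by omega) (by omega)
    have h6 : (vv (n + 1) (k + 1) : ℤ) = ((n : ℤ) + 1 - (k + 1)) *
        Nat.choose (n + (k + 1)) (k + 1) := by
      unfold vv
      rw [Nat.add_sub_cancel, Nat.cast_mul, Nat.cast_sub (by omega)]
      push_cast
      ring
    rw [h6]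
    push_cast at h5
    rw [hf]
    simp only
    linear_combination (p ^ (k + 1) * s ^ (n + 1 - k)) * h5
  have h5 : s ^ 2 * VV (n + 1) p q = ((n : ℤ) + 1) * s ^ (n + 2) +
      ∑ k ∈ Finset.range n, (vv (n + 1) (k + 1) : ℤ) * p ^ (k + 1) * s ^ (n + 1 - k) := by
    have h6 : VV (n + 1) p q = ∑ k ∈ Finset.range (n + 1), (vv (n + 1) k : ℤ) * p ^ k * s ^ (n - k) := rfl
    rw [h6, Finset.mul_sum, Finset.sum_range_succ', add_comm]
    congr 1
    · unfold vv
      simp only [Nat.sub_zero, pow_zero, Nat.choose_zero_right]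
      push_cast
      ring
    · apply Finset.sum_congr rfl
      intro k hk
      have hk' : k < n := Finset.mem_range.mp hk
      have e1 : n + 1 - k = (n - (k + 1)) + 2 := by omega
      rw [e1, pow_add]
      ring
  have h6 : f 0 = (n : ℤ) + 2 := by
    rw [hf]
    simp only
    unfold vv
    simp
  have h7 : ∑ k ∈ Finset.range (n + 1), (f (k + 1) - f k) * p ^ (k + 1) * s ^ (n + 1 - k) =
      (∑ k ∈ Finset.range (n + 1), f (k + 1) * p ^ (k + 1) * s ^ (n + 1 - k)) -
      ∑ k ∈ Finset.range (n + 1), f k * p ^ (k + 1) * s ^ (n + 1 - k) := by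
    rw [← Finset.sum_sub_distrib]
    apply Finset.sum_congr rfl
    intro k _
    ring
  have h8 : VV (n + 2) p q * q = VV (n + 2) p q * s - VV (n + 2) p q * p := by
    rw [hq]
    ring
  rw [h8, h2, h3, h5, h6]
  rw [h7] at h4
  have h9 : f (n + 1) = (vv (n + 2) (n + 1) : ℤ) := rfl
  rw [← h9]
  linear_combination h4

/-- The identity. -/
theorem ident (n : ℕ) (p q : ℤ) :
    VV (n + 1) p q * q ^ (n + 2) - VV (n + 1) q p * p ^ (n + 2) =
      ((n : ℤ) + 1) * (q - p) * (p + q) ^ (2 * n + 1) := by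
  induction n with
  | zero =>
    unfold VV vv
    simp
    ring
  | succ n ih =>
    have h1 := VV_step n p q
    have h2 := VV_step n q p
    have hn : ((n : ℤ) + 1) ≠ 0 := by positivity
    apply mul_left_cancel₀ hn
    have e1 : (n + 1 + 1 : ℕ) = n + 2 := rfl
    have e2 : (n + 1 + 2 : ℕ) = (n + 2) + 1 := rfl
    have e3 : 2 * (n + 1) + 1 = (2 * n + 1) + 2 := by ring
    rw [e1, e2, e3, pow_succ q, pow_succ p, pow_add (p + q)]
    push_cast
    rw [add_comm q p] at h2
    linear_combination (q ^ (n + 2)) * h1 - (p ^ (n + 2)) * h2 + ((n : ℤ) + 2) * (p + q) ^ 2 * ih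

end Pool.Agent.H81.PHL
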