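import Mathlib
import Pool.Agent.H81.PHL.Base
import Pool.Agent.H81.PHL.Ident

/-!
# PHL, Neg: failure of the inequality for small parameters
-/

set_option autoImplicit false

open Filter Topology

namespace Pool.Agent.H81.PHL

/-- The inequality with main coefficients `α B`, `ε B` and an arbitrary coefficient `M` of the
radical, at one pair. -/
def Ineq (B : ℕ) (α ε M : ℝ) (x y : ℚ) : Prop :=
  -(∑ p ∈ (x * y ^ B + 1).num.natAbs.primeFactors,
      Real.log ((padicNorm p (x * y ^ B + 1) : ℚ) : ℝ))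
    ≤ α * (B : ℝ) * Real.log (max |((x.num : ℤ) : ℝ)| ((x.den : ℕ) : ℝ))
      + ε * (B : ℝ) * Real.log (max |((y.num : ℤ) : ℝ)| ((y.den : ℕ) : ℝ))
      + M * (1 + ∑ p ∈ (x * y ^ B + 1).num.natAbs.primeFactors, Real.log (p : ℝ))

/-- Sum of the coefficients. -/
def T1 (n : ℕ) : ℕ := ∑ k ∈ Finset.range (n + 1), vv (n + 1) k

/-- The value at `q = p`. -/
def T2 (n : ℕ) : ℕ := ∑ k ∈ Finset.range (n + 1), vv (n + 1) k * 2 ^ (n - k)

lemma vv_pos {n k : ℕ} (hk : k ≤ n) : 0 < vv (n + 1) k := by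
  unfold vv
  exact Nat.mul_pos (by omega) (Nat.choose_pos (by omega))

lemma T1_pos (n : ℕ) : 0 < T1 n :=
  Finset.sum_pos (fun k hk => vv_pos (by have := Finset.mem_range.mp hk; omega)) ⟨0, by simp⟩

lemma T2_pos (n : ℕ) : 0 < T2 n :=
  Finset.sum_pos (fun k hk => Nat.mul_pos (vv_pos (by have := Finset.mem_range.mp hk; omega))
    (by positivity)) ⟨0, by simp⟩

lemma VV_pos (n : ℕ) {p q : ℤ} (hp : 0 < p) (hq : 0 < q) : 0 < VV (n + 1) p q := by
  unfold VV
  apply Finset.sum_pos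
  · intro k hk
    have h1 : 0 < (vv (n + 1) k : ℤ) := by
      exact_mod_cast vv_pos (by have := Finset.mem_range.mp hk; omega)
    positivity
  · exact ⟨0, by simp⟩

lemma VV_le (n : ℕ) {p q : ℤ} (hp : 0 < p) (hq : 0 < q) :
    VV (n + 1) p q ≤ (T1 n : ℤ) * (p + q) ^ n := by
  unfold VV T1
  push_cast
  rw [Finset.sum_mul]
  apply Finset.sum_le_sum
  intro k hk
  have hk' : k ≤ n := by have := Finset.mem_range.mp hk; omega
  have h1 : p ^ k ≤ (p + q) ^ k := pow_le_pow_left₀ hp.le (by omega) k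
  have h2 : (p + q) ^ k * (p + q) ^ (n + 1 - 1 - k) = (p + q) ^ n := by
    rw [← pow_add]
    congr 1
    omega
  rw [mul_assoc, ← h2]
  have h3 : (0:ℤ) ≤ (p + q) ^ (n + 1 - 1 - k) := by positivity
  have h4 : (0:ℤ) ≤ (vv (n + 1) k : ℤ) := by positivity
  exact mul_le_mul_of_nonneg_left (mul_le_mul_of_nonneg_right h1 h3) h4

lemma VV_mod_sum (n : ℕ) (p q : ℤ) :
    (p + q) ∣ VV (n + 1) p q - (Nat.choose (2 * n) n : ℤ) * p ^ n := by
  unfold VV
  rw [Finset.sum_range_succ]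
  have e1 : (vv (n + 1) n : ℤ) * p ^ n * (p + q) ^ (n + 1 - 1 - n) =
      (Nat.choose (2 * n) n : ℤ) * p ^ n := by
    unfold vv
    have h1 : n + 1 - n = 1 := by omega
    have h2 : n + 1 - 1 - n = 0 := by omega
    have h3 : n + 1 - 1 + n = 2 * n := by omega
    rw [h1, h2, h3]
    simp
  rw [e1, add_sub_cancel_right]
  apply Finset.dvd_sum
  intro k hk
  have hk' : k < n := Finset.mem_range.mp hk
  apply Dvd.dvd.mul_left
  exact dvd_pow_self _ (by omega)

lemma VV_mod_diff (n : ℕ) (p q : ℤ) :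
    (p - q) ∣ VV (n + 1) p q - (T2 n : ℤ) * q ^ n := by
  unfold VV T2
  push_cast
  rw [Finset.sum_mul, ← Finset.sum_sub_distrib]
  apply Finset.dvd_sum
  intro k hk
  have hk' : k ≤ n := by have := Finset.mem_range.mp hk; omega
  have e2 : q ^ n = q ^ k * q ^ (n - k) := by
    rw [← pow_add]
    congr 1
    omega
  have e3 : (vv (n + 1) k : ℤ) * p ^ k * (p + q) ^ (n - k) - (vv (n + 1) k : ℤ) * 2 ^ (n - k) * q ^ n =
      (vv (n + 1) k : ℤ) * ((p ^ k - q ^ k) * (p + q) ^ (n - k) +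
        q ^ k * ((p + q) ^ (n - k) - (2 * q) ^ (n - k))) := by
    rw [e2, mul_pow]
    ring
  rw [e3]
  apply Dvd.dvd.mul_left
  apply dvd_add
  · exact Dvd.dvd.mul_right (sub_dvd_pow_sub_pow p q k) _
  · apply Dvd.dvd.mul_left
    have h1 := sub_dvd_pow_sub_pow (p + q) (2 * q) (n - k)
    have h2 : (p + q) - 2 * q = p - q := by ring
    rwa [h2] at h1

/-- Coprimality of the denominator. -/
lemma cop_E {n p q : ℕ} (hpq : Nat.Coprime p q) (hlt : p < q)
    (h1 : Nat.Coprime (p + q) (Nat.choose (2 * n) n)) (h2 : Nat.Coprime (q - p) (T2 n)) (a : ℕ) :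
    Nat.Coprime ((q - p) * (p + q) ^ a) ((VV (n + 1) q p).natAbs * p ^ (n + 2)) := by
  have hcs : Nat.Coprime (p + q) p := by simpa using hpq.symm
  have hcs' : Nat.Coprime (p + q) q := by simpa using hpq
  have hcd : Nat.Coprime (q - p) p := by
    rw [Nat.coprime_comm]
    exact (Nat.coprime_sub_self_right hlt.le).mpr hpq
  have key1 : Nat.Coprime (p + q) (VV (n + 1) q p).natAbs := by
    rw [Nat.coprime_iff_gcd_eq_one]
    by_contra hne
    obtain ⟨l, hl, hld⟩ := Nat.exists_prime_and_dvd hne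
    have hl1 : l ∣ p + q := hld.trans (Nat.gcd_dvd_left _ _)
    have hl2 : l ∣ (VV (n + 1) q p).natAbs := hld.trans (Nat.gcd_dvd_right _ _)
    have h3 : (l : ℤ) ∣ VV (n + 1) q p := Int.natCast_dvd.mpr hl2
    have h4 : (l : ℤ) ∣ VV (n + 1) q p - (Nat.choose (2 * n) n : ℤ) * q ^ n := by
      refine dvd_trans ?_ (VV_mod_sum n q p)
      have : (l : ℤ) ∣ ((p + q : ℕ) : ℤ) := by exact_mod_cast hl1
      push_cast at this
      rwa [add_comm] at this
    have h5 : (l : ℤ) ∣ (Nat.choose (2 * n) n : ℤ) * q ^ n := (dvd_sub_right h3).mp h4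
    have h6 : l ∣ Nat.choose (2 * n) n * q ^ n := by exact_mod_cast h5
    rcases (Nat.Prime.dvd_mul hl).mp h6 with h7 | h7
    · exact Nat.not_coprime_of_dvd_of_dvd hl.one_lt hl1 h7 h1
    · exact Nat.not_coprime_of_dvd_of_dvd hl.one_lt hl1 (hl.dvd_of_dvd_pow h7) hcs'
  have key2 : Nat.Coprime (q - p) (VV (n + 1) q p).natAbs := by
    rw [Nat.coprime_iff_gcd_eq_one]
    by_contra hne
    obtain ⟨l, hl, hld⟩ := Nat.exists_prime_and_dvd hne
    have hl1 : l ∣ q - p := hld.trans (Nat.gcd_dvd_left _ _)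
    have hl2 : l ∣ (VV (n + 1) q p).natAbs := hld.trans (Nat.gcd_dvd_right _ _)
    have h3 : (l : ℤ) ∣ VV (n + 1) q p := Int.natCast_dvd.mpr hl2
    have h4 : (l : ℤ) ∣ VV (n + 1) q p - (T2 n : ℤ) * p ^ n := by
      refine dvd_trans ?_ (VV_mod_diff n q p)
      have : (l : ℤ) ∣ ((q - p : ℕ) : ℤ) := by exact_mod_cast hl1
      rwa [Nat.cast_sub hlt.le] at this
    have h5 : (l : ℤ) ∣ (T2 n : ℤ) * p ^ n := (dvd_sub_right h3).mp h4
    have h6 : l ∣ T2 n * p ^ n := by exact_mod_cast h5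
    rcases (Nat.Prime.dvd_mul hl).mp h6 with h7 | h7
    · exact Nat.not_coprime_of_dvd_of_dvd hl.one_lt hl1 h7 h2
    · exact Nat.not_coprime_of_dvd_of_dvd hl.one_lt hl1 (hl.dvd_of_dvd_pow h7) hcd
  exact Nat.Coprime.mul_left (Nat.Coprime.mul_right key2 (hcd.pow_right _))
    (Nat.Coprime.mul_right (key1.pow_left _) ((hcs.pow_left _).pow_right _))

lemma num_dvd' (a : ℤ) {b : ℤ} (hb : b ≠ 0) : ((a : ℚ) / (b : ℚ)).num ∣ a := by
  rw [← Rat.divInt_eq_div]
  exact Rat.num_dvd _ hb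

lemma den_dvd' (a b : ℤ) : ((((a : ℚ) / (b : ℚ)).den : ℕ) : ℤ) ∣ b := by
  rw [← Rat.divInt_eq_div]
  exact Rat.den_dvd _ _

/-- The inequality at the pair. -/
lemma pair_bound {n p q : ℕ} {α ε M : ℝ} (hα : 0 ≤ α) (hε : 0 ≤ ε) (hM : 0 ≤ M)
    (h : ∀ x y : ℚ, x ≠ 0 → y ≠ 0 → x * y ^ (n + 2) ≠ 1 → x * y ^ (n + 2) ≠ -1 →
      Ineq (n + 2) α ε M x y)
    (hp : 0 < p) (hlt : p < q) (hpq : Nat.Coprime p q)
    (h1 : Nat.Coprime (p + q) (Nat.choose (2 * n) n)) (h2 : Nat.Coprime (q - p) (T2 n))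
    {R : ℕ} (hR : 0 < R) (hrad : ∀ l : ℕ, l.Prime → l ∣ (q - p) * (p + q) → l ∣ R) :
    Real.log ((q - p : ℕ) : ℝ) + (2 * n + 1) * Real.log ((p + q : ℕ) : ℝ) ≤
      α * (n + 2) * (Real.log (T1 n : ℝ) + n * Real.log ((p + q : ℕ) : ℝ)) +
        ε * (n + 2) * Real.log ((p + q : ℕ) : ℝ) +
        M * (1 + Real.log (((n + 1) * R : ℕ) : ℝ)) := by
  have hp' : (0:ℤ) < p := by exact_mod_cast hp
  have hq : 0 < q := by omega
  have hq' : (0:ℤ) < q := by exact_mod_cast hq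
  set V1 : ℤ := VV (n + 1) p q with hV1
  set V2 : ℤ := VV (n + 1) q p with hV2
  have hV1p : 0 < V1 := VV_pos n hp' hq'
  have hV2p : 0 < V2 := VV_pos n hq' hp'
  set s : ℕ := p + q with hs
  have hs3 : 3 ≤ s := by omega
  set Z : ℕ := (q - p) * s ^ (2 * n + 1) with hZ
  have hqp : 0 < q - p := by omega
  have hZp : 0 < Z := by positivity
  have hid := ident n p q
  rw [← hV1, ← hV2] at hid
  have hZc : ((n : ℤ) + 1) * ((q:ℤ) - p) * ((p:ℤ) + q) ^ (2 * n + 1) = (((n + 1) * Z : ℕ) : ℤ) := by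
    rw [hZ, hs]
    push_cast [Nat.cast_sub hlt.le]
    ring
  rw [hZc] at hid
  set x : ℚ := ((-V1 : ℤ) : ℚ) / ((V2 : ℤ) : ℚ) with hx
  set y : ℚ := ((q : ℤ) : ℚ) / ((p : ℤ) : ℚ) with hy
  have hV1q : (0:ℚ) < V1 := by exact_mod_cast hV1p
  have hV2q : (0:ℚ) < V2 := by exact_mod_cast hV2p
  have hpq0 : (0:ℚ) < ((p:ℤ):ℚ) := by exact_mod_cast hp'
  have hqq0 : (0:ℚ) < ((q:ℤ):ℚ) := by exact_mod_cast hq'
  have hx0 : x ≠ 0 := by
    rw [hx]
    apply div_ne_zero _ hV2q.ne'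
    push_cast
    exact neg_ne_zero.mpr hV1q.ne'
  have hy0 : y ≠ 0 := (div_pos hqq0 hpq0).ne'
  set r : ℚ := x * y ^ (n + 2) + 1 with hr
  have hidq : (V1 : ℚ) * ((q:ℤ):ℚ) ^ (n + 2) - (V2 : ℚ) * ((p:ℤ):ℚ) ^ (n + 2) = (((n + 1) * Z : ℕ) : ℚ) := by
    exact_mod_cast hid
  have hrE : r * ((V2 : ℚ) * ((p:ℤ):ℚ) ^ (n + 2)) = -(((n + 1) * Z : ℕ) : ℚ) := by
    rw [← hidq, hr, hx, hy, div_pow]
    push_cast
    field_simp
    ring
  have hcpos : (0:ℚ) < (((n + 1) * Z : ℕ) : ℚ) := by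
    exact_mod_cast Nat.mul_pos (Nat.succ_pos n) hZp
  have hr0 : r ≠ 0 := by
    intro h0
    rw [h0, zero_mul] at hrE
    linarith
  have hnumE : r.num * (V2 * (p:ℤ) ^ (n + 2)) = -(((n + 1) * Z : ℕ) : ℤ) * (r.den : ℤ) := by
    have e1 : (r.num : ℚ) = r * r.den := (Rat.mul_den_eq_num r).symm
    have e2 : (r.num : ℚ) * ((V2 : ℚ) * ((p:ℤ):ℚ) ^ (n + 2)) = -(((n + 1) * Z : ℕ) : ℚ) * (r.den : ℚ) := by
      rw [e1, ← hrE]
      ring
    exact_mod_cast e2
  have hnat : r.num.natAbs * (V2.natAbs * p ^ (n + 2)) = ((n + 1) * Z) * r.den := by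
    have e1 := congrArg Int.natAbs hnumE
    rw [Int.natAbs_mul, Int.natAbs_mul, Int.natAbs_pow, Int.natAbs_natCast, Int.natAbs_mul,
      Int.natAbs_neg, Int.natAbs_natCast, Int.natAbs_natCast] at e1
    exact e1
  have hcop := cop_E hpq hlt h1 h2 (2 * n + 1)
  have hZd : Z ∣ r.num.natAbs := by
    apply Nat.Coprime.dvd_of_dvd_mul_right (k := Z) (n := V2.natAbs * p ^ (n + 2)) hcop
    rw [hnat]
    exact Dvd.dvd.mul_right (dvd_mul_left _ _) _
  have hnum0 : 0 < r.num.natAbs := Int.natAbs_pos.mpr (Rat.num_ne_zero.mpr hr0)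
  have hZle : Z ≤ r.num.natAbs := Nat.le_of_dvd hnum0 hZd
  have hZs : s ≤ Z := by
    calc s ≤ s ^ (2 * n + 1) := Nat.le_self_pow (by omega) s
      _ ≤ Z := Nat.le_mul_of_pos_left _ hqp
  have hnd : r.num.natAbs ∣ (n + 1) * Z := by
    apply Nat.Coprime.dvd_of_dvd_mul_right (k := r.num.natAbs) (n := r.den) r.reduced
    rw [← hnat]
    exact dvd_mul_right _ _
  have hne1 : x * y ^ (n + 2) ≠ 1 := by
    intro h0
    have e1 : r = ((2 : ℤ) : ℚ) := by
      rw [hr, h0]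
      norm_num
    have e2 : r.num = 2 := by
      rw [e1]
      exact Rat.num_intCast 2
    rw [e2] at hZle
    have : (2 : ℤ).natAbs = 2 := rfl
    omega
  have hne2 : x * y ^ (n + 2) ≠ -1 := by
    intro h0
    apply hr0
    rw [hr, h0]
    norm_num
  have hmain := h x y hx0 hy0 hne1 hne2
  unfold Ineq at hmain
  rw [lhs_eq _ hr0, ← log_rad] at hmain
  have hlogZ : Real.log ((q - p : ℕ) : ℝ) + (2 * n + 1) * Real.log (s : ℝ) ≤
      Real.log (r.num.natAbs : ℝ) := by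
    have e1 : Real.log (Z : ℝ) = Real.log ((q - p : ℕ) : ℝ) + (2 * n + 1) * Real.log (s : ℝ) := by
      rw [hZ, Nat.cast_mul, Nat.cast_pow, Real.log_mul, Real.log_pow]
      · push_cast
        ring
      · exact_mod_cast hqp.ne'
      · have : (0:ℝ) < s := by exact_mod_cast (by omega : 0 < s)
        positivity
    rw [← e1]
    apply Real.log_le_log
    · exact_mod_cast hZp
    · exact_mod_cast hZle
  have hradR : Real.log (rad r.num.natAbs : ℝ) ≤ Real.log (((n + 1) * R : ℕ) : ℝ) := by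
    apply Real.log_le_log
    · exact_mod_cast rad_pos _
    · have e1 : rad r.num.natAbs ∣ (n + 1) * R := by
        apply rad_dvd
        intro l hl hld
        rcases (Nat.Prime.dvd_mul hl).mp (hld.trans hnd) with h3 | h3
        · exact Dvd.dvd.mul_right h3 _
        · apply Dvd.dvd.mul_left
          apply hrad l hl
          rcases (Nat.Prime.dvd_mul hl).mp h3 with h4 | h4
          · exact Dvd.dvd.mul_right h4 _
          · exact Dvd.dvd.mul_left (hl.dvd_of_dvd_pow h4) _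
      exact_mod_cast Nat.le_of_dvd (Nat.mul_pos (Nat.succ_pos n) hR) e1
  have hs0 : (0:ℝ) < s := by exact_mod_cast (by omega : 0 < s)
  have hs1 : (1:ℝ) ≤ s := by exact_mod_cast (by omega : 1 ≤ s)
  have hlogs : 0 ≤ Real.log (s : ℝ) := Real.log_nonneg hs1
  have hhx : Real.log (max |((x.num : ℤ) : ℝ)| ((x.den : ℕ) : ℝ)) ≤
      Real.log (T1 n : ℝ) + n * Real.log (s : ℝ) := by
    have hT : (0:ℝ) < (T1 n : ℝ) := by exact_mod_cast T1_pos n
    rw [← Real.log_pow, ← Real.log_mul hT.ne' (by positivity)]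
    apply Real.log_le_log
    · have : (0 : ℝ) < x.den := by exact_mod_cast x.den_pos
      exact lt_of_lt_of_le this (le_max_right _ _)
    · apply max_le
      · have e1 : x.num ∣ -V1 := num_dvd' _ hV2p.ne'
        have e2 : |x.num| ≤ V1 := by
          have e3 := Int.le_of_dvd hV1p ((abs_dvd _ _).mpr ((dvd_neg).mp e1))
          exact e3
        have e3 : V1 ≤ (T1 n : ℤ) * ((s : ℕ) : ℤ) ^ n := by
          have := VV_le n hp' hq'
          rw [hs]
          push_cast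
          exact this
        have e4 : |x.num| ≤ (T1 n : ℤ) * ((s : ℕ) : ℤ) ^ n := e2.trans e3
        exact_mod_cast e4
      · have e1 : ((x.den : ℕ) : ℤ) ∣ V2 := den_dvd' _ _
        have e2 : ((x.den : ℕ) : ℤ) ≤ V2 := Int.le_of_dvd hV2p e1
        have e3 : V2 ≤ (T1 n : ℤ) * ((s : ℕ) : ℤ) ^ n := by
          have := VV_le n hq' hp'
          rw [hs]
          push_cast
          rw [add_comm (p:ℤ)]
          exact this
        exact_mod_cast e2.trans e3
  have hhy : Real.log (max |((y.num : ℤ) : ℝ)| ((y.den : ℕ) : ℝ)) ≤ Real.log (s : ℝ) := by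
    apply Real.log_le_log
    · have : (0 : ℝ) < y.den := by exact_mod_cast y.den_pos
      exact lt_of_lt_of_le this (le_max_right _ _)
    · apply max_le
      · have e1 : y.num ∣ (q : ℤ) := num_dvd' _ hp'.ne'
        have e2 : |y.num| ≤ (q : ℤ) := Int.le_of_dvd hq' ((abs_dvd _ _).mpr e1)
        have e3 : (q : ℤ) ≤ ((s : ℕ) : ℤ) := by
          rw [hs]
          push_cast
          omega
        exact_mod_cast e2.trans e3
      · have e1 : ((y.den : ℕ) : ℤ) ∣ (p : ℤ) := den_dvd' _ _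
        have e2 : ((y.den : ℕ) : ℤ) ≤ (p : ℤ) := Int.le_of_dvd hp' e1
        have e3 : (p : ℤ) ≤ ((s : ℕ) : ℤ) := by
          rw [hs]
          push_cast
          omega
        exact_mod_cast e2.trans e3
  push_cast at hmain
  have hn2 : (0:ℝ) ≤ (n:ℝ) + 2 := by positivity
  have t1 : α * ((n:ℝ) + 2) * Real.log (max |((x.num : ℤ) : ℝ)| ((x.den : ℕ) : ℝ)) ≤
      α * (n + 2) * (Real.log (T1 n : ℝ) + n * Real.log (s : ℝ)) :=
    mul_le_mul_of_nonneg_left hhx (mul_nonneg hα hn2)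
  have t2 : ε * ((n:ℝ) + 2) * Real.log (max |((y.num : ℤ) : ℝ)| ((y.den : ℕ) : ℝ)) ≤
      ε * (n + 2) * Real.log (s : ℝ) :=
    mul_le_mul_of_nonneg_left hhy (mul_nonneg hε hn2)
  have t3 : M * (1 + Real.log (rad r.num.natAbs : ℝ)) ≤
      M * (1 + Real.log (((n + 1) * R : ℕ) : ℝ)) :=
    mul_le_mul_of_nonneg_left (by linarith) hM
  linarith

lemma le_of_forall_mul {a K : ℝ} (h : ∀ t : ℕ, 0 < t → t * a ≤ K) : a ≤ 0 := by
  by_contra hcon
  push Not at hcon
  obtain ⟨t, ht⟩ := exists_nat_gt (|K| / a)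
  have h0 : 0 ≤ |K| / a := by positivity
  have ht0 : (0:ℝ) < t := lt_of_le_of_lt h0 ht
  have h1 := h t (by exact_mod_cast ht0)
  rw [div_lt_iff₀ hcon] at ht
  have h2 := le_abs_self K
  linarith

/-- Larger `M`. -/
lemma Ineq.mono {B : ℕ} {α ε M M' : ℝ} {x y : ℚ} (hM : M ≤ M') (h : Ineq B α ε M x y) :
    Ineq B α ε M' x y := by
  unfold Ineq at h ⊢
  refine h.trans ?_
  have h0 : 0 ≤ ∑ p ∈ (x * y ^ B + 1).num.natAbs.primeFactors, Real.log (p : ℝ) := by
    apply Finset.sum_nonneg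
    intro p hp
    apply Real.log_nonneg
    exact_mod_cast (Nat.prime_of_mem_primeFactors hp).one_le
  have h1 := mul_le_mul_of_nonneg_right hM (show 0 ≤ 1 +
    ∑ p ∈ (x * y ^ B + 1).num.natAbs.primeFactors, Real.log (p : ℝ) by linarith)
  linarith

/-- Failure for `B = n + 2`. -/
theorem neg_two (n : ℕ) {α ε : ℝ} (hα : 0 ≤ α) (hε : 0 ≤ ε)
    (hlt : α * (n + 2) * n + ε * (n + 2) < 2 * n + 2) {M : ℝ} (hM : 0 ≤ M) :
    ¬ ∀ x y : ℚ, x ≠ 0 → y ≠ 0 → x * y ^ (n + 2) ≠ 1 → x * y ^ (n + 2) ≠ -1 →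
      Ineq (n + 2) α ε M x y := by
  intro h
  set D : ℕ := 2 * (Nat.choose (2 * n) n * T2 n) with hD
  have hD0 : 0 < D := by
    have h1 : 0 < Nat.choose (2 * n) n := Nat.choose_pos (by omega)
    have h2 := T2_pos n
    positivity
  set C : ℝ := α * (n + 2) * n + ε * (n + 2) with hC
  have hC0 : 0 ≤ C := by positivity
  have key : ∀ k : ℕ, 0 < k → (2 * n + 2) * Real.log ((D * k + 1 : ℕ) : ℝ) ≤
      C * Real.log ((D * k + 1 + D : ℕ) : ℝ) := by
    intro k hk
    set N : ℕ := D * k + 1 with hN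
    have hN0 : 0 < N := by omega
    have c1 : Nat.Coprime N D := by
      rw [← Nat.isCoprime_iff_coprime]
      refine ⟨1, -(k : ℤ), ?_⟩
      rw [hN]
      push_cast
      ring
    have c2 : Nat.Coprime (N + D) D := by
      rw [← Nat.isCoprime_iff_coprime]
      refine ⟨1, -((k : ℤ) + 1), ?_⟩
      rw [hN]
      push_cast
      ring
    have c3 : Nat.Coprime (N + D) N := by
      rw [← Nat.isCoprime_iff_coprime]
      refine ⟨-(k : ℤ), 1 + (k : ℤ), ?_⟩
      rw [hN]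
      push_cast
      ring
    set R : ℕ := N * (N + D) with hR
    have hR0 : 0 < R := by positivity
    set K : ℝ := α * (n + 2) * Real.log (T1 n : ℝ) +
      M * (1 + Real.log (((n + 1) * R : ℕ) : ℝ)) with hK
    have hfin : (2 * n + 2) * Real.log (N : ℝ) - C * Real.log ((N + D : ℕ) : ℝ) ≤ 0 := by
      apply le_of_forall_mul (K := K)
      intro t ht
      set z : ℕ := N ^ t with hz
      set w : ℕ := (N + D) ^ t with hw
      have hz0 : 0 < z := Nat.pow_pos hN0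
      have hzw : z < w := Nat.pow_lt_pow_left (by omega) (by omega)
      have hdiv : 2 ∣ w - z := by
        have h1 : (N + D) - N ∣ (N + D) ^ t - N ^ t := Nat.sub_dvd_pow_sub_pow _ _ t
        rw [Nat.add_sub_cancel_left] at h1
        exact (Dvd.intro _ rfl : 2 ∣ D).trans h1
      obtain ⟨p, hp⟩ := hdiv
      have hw2 : w = z + 2 * p := by omega
      have hp0 : 0 < p := by omega
      have cwz : Nat.Coprime w z := Nat.Coprime.pow _ _ c3
      have cpz : Nat.Coprime p z := by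
        rw [hw2] at cwz
        have h1 : Nat.Coprime (2 * p) z := by simpa using cwz
        exact Nat.Coprime.coprime_mul_left h1
      have cpq : Nat.Coprime p (p + z) := by simpa using cpz
      have e1 : p + (p + z) = w := by omega
      have e2 : (p + z) - p = z := by omega
      have d1 : Nat.choose (2 * n) n ∣ D := ⟨2 * T2 n, by rw [hD]; ring⟩
      have d2 : T2 n ∣ D := ⟨2 * Nat.choose (2 * n) n, by rw [hD]; ring⟩
      have h3 := pair_bound (n := n) (p := p) (q := p + z) (R := R) hα hε hM h hp0 (by omega) cpq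
        (by rw [e1]; exact Nat.Coprime.coprime_dvd_right d1 (c2.pow_left t))
        (by rw [e2]; exact Nat.Coprime.coprime_dvd_right d2 (c1.pow_left t)) hR0
        (by
          rw [e1, e2]
          intro l hl hld
          rcases (Nat.Prime.dvd_mul hl).mp hld with h4 | h4
          · exact Dvd.dvd.mul_right (hl.dvd_of_dvd_pow h4) _
          · exact Dvd.dvd.mul_left (hl.dvd_of_dvd_pow h4) _)
      rw [e1, e2] at h3
      have e3 : Real.log (z : ℝ) = t * Real.log (N : ℝ) := by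
        rw [hz, Nat.cast_pow, Real.log_pow]
      have e4 : Real.log (w : ℝ) = t * Real.log ((N + D : ℕ) : ℝ) := by
        rw [hw, Nat.cast_pow, Real.log_pow]
      rw [e3, e4] at h3
      have e5 : Real.log (N : ℝ) ≤ Real.log ((N + D : ℕ) : ℝ) := by
        apply Real.log_le_log
        · exact_mod_cast hN0
        · exact_mod_cast Nat.le_add_right N D
      have ht0 : (0:ℝ) ≤ t := Nat.cast_nonneg _
      have hn0 : (0:ℝ) ≤ n := Nat.cast_nonneg _
      have e6 : (2 * (n:ℝ) + 1) * (t * Real.log (N : ℝ)) ≤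
          (2 * n + 1) * (t * Real.log ((N + D : ℕ) : ℝ)) := by gcongr
      rw [hK, hC]
      linarith
    linarith
  have hgap : 0 < 2 * (n:ℝ) + 2 - C := by linarith
  obtain ⟨k, hk⟩ := exists_nat_gt (Real.exp (C * Real.log (1 + D) / (2 * n + 2 - C)))
  have hk0 : (0:ℝ) < k := (Real.exp_pos _).trans hk
  have hkn : 0 < k := by exact_mod_cast hk0
  have h1 := key k hkn
  have hNk : k ≤ D * k + 1 := by nlinarith
  have hNpos : (0:ℝ) < ((D * k + 1 : ℕ) : ℝ) := by positivity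
  have h2 : Real.log ((D * k + 1 + D : ℕ) : ℝ) ≤
      Real.log ((D * k + 1 : ℕ) : ℝ) + Real.log (1 + D) := by
    rw [← Real.log_mul hNpos.ne' (by positivity)]
    apply Real.log_le_log (by positivity)
    push_cast
    have : (0:ℝ) ≤ (D:ℝ) * k * D := by positivity
    nlinarith
  have h3 : C * Real.log (1 + D) / (2 * n + 2 - C) < Real.log ((D * k + 1 : ℕ) : ℝ) := by
    have h4 : C * Real.log (1 + D) / (2 * n + 2 - C) < Real.log (k : ℝ) :=
      (Real.lt_log_iff_exp_lt hk0).mpr hk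
    refine h4.trans_le (Real.log_le_log hk0 ?_)
    exact_mod_cast hNk
  rw [div_lt_iff₀ hgap] at h3
  have h4 : C * Real.log ((D * k + 1 + D : ℕ) : ℝ) ≤
      C * (Real.log ((D * k + 1 : ℕ) : ℝ) + Real.log (1 + D)) := mul_le_mul_of_nonneg_left h2 hC0
  linarith

/-- Failure for `B = 1`. -/
theorem neg_one {α ε : ℝ} (hε : 0 ≤ ε) (hε1 : ε < 1) {M : ℝ} :
    ¬ ∀ x y : ℚ, x ≠ 0 → y ≠ 0 → x * y ^ 1 ≠ 1 → x * y ^ 1 ≠ -1 → Ineq 1 α ε M x y := by
  intro h
  have hl2 := Real.log_pos (show (1:ℝ) < 2 by norm_num)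
  have key : (1 - ε) * Real.log 2 ≤ 0 := by
    apply le_of_forall_mul (K := M * (1 + Real.log 2))
    intro t ht
    set u : ℕ := 2 ^ (t + 1) with hu
    have hu4 : 4 ≤ u := by
      calc 4 = 2 ^ 2 := by norm_num
        _ ≤ 2 ^ (t + 1) := Nat.pow_le_pow_right (by norm_num) (by omega)
    set y : ℚ := (((u : ℤ) - 1 : ℤ) : ℚ) with hy
    have huq : (4:ℚ) ≤ (u:ℚ) := by exact_mod_cast hu4
    have hyv : y = (u:ℚ) - 1 := by rw [hy]; push_cast; rfl
    have hy1 : (1:ℚ) * y ^ 1 + 1 = ((u : ℤ) : ℚ) := by rw [hyv]; push_cast; ring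
    have hne : (1:ℚ) * y ^ 1 + 1 ≠ 0 := by rw [hy1]; push_cast; linarith
    have h1 := h 1 y one_ne_zero (by rw [hyv]; linarith) (by rw [hyv]; intro h0; linarith)
      (by rw [hyv]; intro h0; linarith)
    unfold Ineq at h1
    rw [lhs_eq _ hne, ← log_rad, hy1, Rat.num_intCast, Int.natAbs_natCast] at h1
    have hrad : rad u = 2 := by
      unfold rad
      rw [hu, Nat.primeFactors_prime_pow (by omega) Nat.prime_two]
      simp
    have hyn : y.num = (u : ℤ) - 1 := by rw [hy]; exact Rat.num_intCast _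
    have hyd : y.den = 1 := by rw [hy]; exact Rat.den_intCast _
    rw [hrad, hyn, hyd] at h1
    have e1 : Real.log (max |(((1:ℚ).num : ℤ) : ℝ)| (((1:ℚ).den : ℕ) : ℝ)) = 0 := by simp
    rw [e1] at h1
    have e2 : Real.log (u : ℝ) = (t + 1) * Real.log 2 := by
      rw [hu, Nat.cast_pow, Real.log_pow]
      push_cast
      ring
    have hur : (4:ℝ) ≤ (u:ℝ) := by exact_mod_cast hu4
    have e3 : Real.log (max |(((u : ℤ) - 1 : ℤ) : ℝ)| ((1 : ℕ) : ℝ)) ≤ Real.log (u : ℝ) := by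
      push_cast
      rw [abs_of_nonneg (by linarith), max_eq_left (by linarith)]
      exact Real.log_le_log (by linarith) (by linarith)
    have e4 : ε * Real.log (max |(((u : ℤ) - 1 : ℤ) : ℝ)| ((1 : ℕ) : ℝ)) ≤ ε * Real.log (u : ℝ) :=
      mul_le_mul_of_nonneg_left e3 hε
    have e5 : 0 ≤ (1 - ε) * Real.log 2 := mul_nonneg (by linarith) hl2.le
    rw [e2] at e4 h1
    push_cast at h1 e4 ⊢
    nlinarith
  nlinarith

end Pool.Agent.H81.PHL
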