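import Mathlib
import Pool.Agent.H81.PHL.Neg

/-!
# PHL, Root: roots of the form modulo powers of primes
-/

set_option autoImplicit false

namespace Pool.Agent.H81.PHL

open Polynomial

/-- The polynomial `VV (n+1) X 1`. -/
noncomputable def vp (n : ℕ) : ℤ[X] :=
  ∑ k ∈ Finset.range (n + 1), C (vv (n + 1) k : ℤ) * X ^ k * (X + 1) ^ (n - k)

/-- The polynomial `VV (n+1) 1 X`. -/
noncomputable def vr (n : ℕ) : ℤ[X] :=
  ∑ k ∈ Finset.range (n + 1), C (vv (n + 1) k : ℤ) * (1 + X) ^ (n - k)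

lemma vp_eval (n : ℕ) (r : ℤ) : (vp n).eval r = VV (n + 1) r 1 := by
  unfold vp VV
  rw [eval_finsetSum]
  apply Finset.sum_congr rfl
  intro k _
  simp

lemma vr_eval (n : ℕ) (r : ℤ) : (vr n).eval r = VV (n + 1) 1 r := by
  unfold vr VV
  rw [eval_finsetSum]
  apply Finset.sum_congr rfl
  intro k _
  simp

lemma ident_poly (n : ℕ) :
    vp n - X ^ (n + 2) * vr n = C ((n : ℤ) + 1) * (1 - X) * (1 + X) ^ (2 * n + 1) := by
  apply Polynomial.funext
  intro r
  have h := ident n r 1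
  rw [eval_sub, eval_mul, vp_eval, vr_eval]
  simp only [eval_pow, eval_X, eval_mul, eval_C, eval_sub, eval_add, eval_one]
  rw [add_comm 1 r]
  linear_combination h

/-- The cofactor. -/
noncomputable def wp (n : ℕ) : ℤ[X] :=
  (1 - X ^ 2) * (C ((n : ℤ) + 2) * vr n + X * derivative (vr n)) -
    (C (2 * (n : ℤ)) - C (2 * (n : ℤ) + 2) * X) * (X * vr n)

lemma ode_aux (n : ℕ) :
    (1 - X ^ 2) * derivative (vp n) - (C (2 * (n : ℤ)) - C (2 * (n : ℤ) + 2) * X) * vp n =
      X ^ (n + 1) * wp n := by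
  have h := ident_poly n
  have hv : vp n = X ^ (n + 2) * vr n + C ((n : ℤ) + 1) * (1 - X) * (1 + X) ^ (2 * n + 1) := by
    rw [← h]
    ring
  have hd := congrArg derivative hv
  simp only [derivative_add, derivative_mul, derivative_pow, derivative_X, derivative_C, derivative_sub,
    derivative_one, Nat.add_sub_cancel] at hd
  rw [show n + 2 - 1 = n + 1 from rfl] at hd
  unfold wp
  rw [hd, hv]
  simp only [map_add, map_mul, map_natCast, map_ofNat, map_one, Nat.cast_add, Nat.cast_mul,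
    Nat.cast_ofNat, Nat.cast_one]
  ring

lemma vp_natDegree (n : ℕ) : (vp n).natDegree ≤ n := by
  unfold vp
  apply natDegree_sum_le_of_forall_le
  intro k hk
  have hk' : k ≤ n := by have := Finset.mem_range.mp hk; omega
  have h1 : (C (vv (n + 1) k : ℤ) * X ^ k * (X + 1) ^ (n - k) : ℤ[X]).natDegree ≤ k + (n - k) := by
    apply natDegree_mul_le_of_le
    · exact natDegree_C_mul_X_pow_le _ _
    · have h2 := natDegree_pow_le (p := (X + 1 : ℤ[X])) (n := n - k)
      have h3 : (X + 1 : ℤ[X]).natDegree ≤ 1 := by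
        have := natDegree_X_add_C (1 : ℤ)
        rw [map_one] at this
        exact this.le
      calc ((X + 1 : ℤ[X]) ^ (n - k)).natDegree ≤ (n - k) * (X + 1 : ℤ[X]).natDegree := h2
        _ ≤ (n - k) * 1 := Nat.mul_le_mul_left _ h3
        _ = n - k := mul_one _
  omega

lemma wp_const (n : ℕ) : wp n = C ((wp n).coeff 0) := by
  by_cases hw : wp n = 0
  · rw [hw]
    simp
  have h1 := ode_aux n
  have h2 : ((1 - X ^ 2) * derivative (vp n) -
      (C (2 * (n : ℤ)) - C (2 * (n : ℤ) + 2) * X) * vp n : ℤ[X]).natDegree ≤ n + 1 := by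
    apply (natDegree_sub_le _ _).trans
    apply max_le
    · by_cases hn : n = 0
      · subst hn
        have h3 : (vp 0) = C ((vp 0).coeff 0) := eq_C_of_natDegree_le_zero (vp_natDegree 0)
        rw [h3]
        simp
      · have h3 : (1 - X ^ 2 : ℤ[X]).natDegree ≤ 2 := by
          apply (natDegree_sub_le _ _).trans
          simp
        have h4 : (derivative (vp n)).natDegree ≤ n - 1 :=
          (natDegree_derivative_le _).trans (Nat.sub_le_sub_right (vp_natDegree n) 1)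
        have h5 := natDegree_mul_le_of_le h3 h4
        omega
    · have h3 : (C (2 * (n : ℤ)) - C (2 * (n : ℤ) + 2) * X : ℤ[X]).natDegree ≤ 1 := by
        apply (natDegree_sub_le _ _).trans
        apply max_le
        · rw [natDegree_C]
          exact Nat.zero_le _
        · exact (natDegree_C_mul_le _ _).trans natDegree_X_le
      have h5 := natDegree_mul_le_of_le h3 (vp_natDegree n)
      omega
  rw [h1, natDegree_mul (pow_ne_zero _ X_ne_zero) hw, natDegree_X_pow] at h2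
  exact eq_C_of_natDegree_le_zero (by omega)

lemma ode (n : ℕ) (r : ℤ) :
    (1 - r ^ 2) * (derivative (vp n)).eval r - (2 * (n : ℤ) - (2 * (n : ℤ) + 2) * r) * VV (n + 1) r 1 =
      r ^ (n + 1) * (((n : ℤ) + 2) * (T1 n : ℤ)) := by
  have h1 := congrArg (eval r) (ode_aux n)
  rw [wp_const n] at h1
  have h2 : (wp n).coeff 0 = ((n : ℤ) + 2) * (T1 n : ℤ) := by
    rw [coeff_zero_eq_eval_zero]
    unfold wp
    simp only [eval_sub, eval_mul, eval_add, eval_one, eval_pow, eval_X, eval_C]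
    rw [vr_eval]
    have h3 : VV (n + 1) 1 0 = (T1 n : ℤ) := by
      unfold VV T1
      push_cast
      apply Finset.sum_congr rfl
      intro k _
      simp
    rw [h3]
    ring
  rw [h2] at h1
  simp only [eval_sub, eval_mul, eval_one, eval_pow, eval_X, eval_C] at h1
  rw [vp_eval] at h1
  exact h1

lemma VV_zero_one (n : ℕ) : VV (n + 1) 0 1 = (n : ℤ) + 1 := by
  unfold VV
  rw [Finset.sum_range_succ']
  have h1 : ∑ k ∈ Finset.range n, (vv (n + 1) (k + 1) : ℤ) * 0 ^ (k + 1) *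
      (0 + 1) ^ (n + 1 - 1 - (k + 1)) = 0 := by
    apply Finset.sum_eq_zero
    intro k _
    simp
  rw [h1]
  unfold vv
  simp

lemma dvd_VV_sub (n : ℕ) (r : ℤ) : r ∣ VV (n + 1) r 1 - ((n : ℤ) + 1) := by
  have h := sub_dvd_eval_sub r 0 (vp n)
  rw [vp_eval, vp_eval, VV_zero_one, sub_zero] at h
  exact h

lemma root_simple {n l : ℕ} (hl : l.Prime) (h0 : ¬ l ∣ (n + 1) * ((n + 2) * T1 n)) {r : ℤ}
    (h : (l : ℤ) ∣ VV (n + 1) r 1) : ¬ (l : ℤ) ∣ r ∧ ¬ (l : ℤ) ∣ (derivative (vp n)).eval r := by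
  have hlp : Prime (l : ℤ) := Nat.prime_iff_prime_int.mp hl
  have hr : ¬ (l : ℤ) ∣ r := by
    intro h1
    have h2 : (l : ℤ) ∣ ((n : ℤ) + 1) := by
      have h3 := h1.trans (dvd_VV_sub n r)
      have h4 := dvd_sub h h3
      rwa [sub_sub_cancel] at h4
    apply h0
    apply Dvd.dvd.mul_right
    exact_mod_cast h2
  refine ⟨hr, ?_⟩
  intro h1
  have h2 := ode n r
  have h3 : (l : ℤ) ∣ r ^ (n + 1) * (((n : ℤ) + 2) * (T1 n : ℤ)) := by
    rw [← h2]
    exact dvd_sub (Dvd.dvd.mul_left h1 _) (Dvd.dvd.mul_left h _)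
  rcases hlp.dvd_or_dvd h3 with h4 | h4
  · exact hr (hlp.dvd_of_dvd_pow h4)
  · apply h0
    apply Dvd.dvd.mul_left
    exact_mod_cast h4

lemma hensel_int (f : ℤ[X]) {l : ℕ} (hl : l.Prime) {r0 : ℤ} (h0 : (l : ℤ) ∣ f.eval r0)
    (h1 : ¬ (l : ℤ) ∣ (derivative f).eval r0) (e : ℕ) :
    ∃ r : ℤ, (l : ℤ) ∣ r - r0 ∧ (l : ℤ) ^ (e + 1) ∣ f.eval r := by
  induction e with
  | zero => exact ⟨r0, by simp, by simpa using h0⟩
  | succ e ih =>
    obtain ⟨r, hr, b, hb⟩ := ih
    have hlp : Prime (l : ℤ) := Nat.prime_iff_prime_int.mp hl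
    have h2 : ¬ (l : ℤ) ∣ (derivative f).eval r := by
      intro h3
      apply h1
      have h4 := hr.trans (sub_dvd_eval_sub r r0 (derivative f))
      have h5 := dvd_sub h3 h4
      rwa [sub_sub_cancel] at h5
    have h3 : IsCoprime (l : ℤ) ((derivative f).eval r) :=
      (Prime.coprime_iff_not_dvd hlp).mpr h2
    obtain ⟨u, v, huv⟩ := h3
    -- `u l + v f'(r) = 1`; take `a = - b v`
    obtain ⟨k, hk⟩ := binomExpansion f r ((l : ℤ) ^ (e + 1) * (-(b * v)))
    refine ⟨r + (l : ℤ) ^ (e + 1) * (-(b * v)), ?_, ?_⟩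
    · have h4 : (l : ℤ) ∣ (l : ℤ) ^ (e + 1) * (-(b * v)) :=
        Dvd.dvd.mul_right (dvd_pow_self _ (Nat.succ_ne_zero e)) _
      have h5 : r + (l : ℤ) ^ (e + 1) * (-(b * v)) - r0 =
          (r - r0) + (l : ℤ) ^ (e + 1) * (-(b * v)) := by ring
      rw [h5]
      exact dvd_add hr h4
    · rw [hk, hb]
      have h4 : (l : ℤ) ^ (e + 1) * b + eval r (derivative f) * ((l : ℤ) ^ (e + 1) * (-(b * v))) +
          k * ((l : ℤ) ^ (e + 1) * (-(b * v))) ^ 2 =
          (l : ℤ) ^ (e + 1 + 1) * (b * u + k * (l : ℤ) ^ e * (b * v) ^ 2) := by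
        have h6 : eval r (derivative f) * v = 1 - u * l := by linear_combination huv
        have h5 : eval r (derivative f) * ((l : ℤ) ^ (e + 1) * (-(b * v))) =
            -((l : ℤ) ^ (e + 1) * b * (1 - u * l)) := by
          linear_combination (-((l : ℤ) ^ (e + 1) * b)) * h6
        rw [h5]
        ring
      rw [h4]
      exact dvd_mul_right _ _

lemma exists_prime_root {n : ℕ} (hn : 1 ≤ n) {N : ℕ} (hN : 0 < N) :
    ∃ l : ℕ, l.Prime ∧ ¬ l ∣ N ∧ ∃ r : ℤ, (l : ℤ) ∣ VV (n + 1) r 1 := by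
  set r : ℤ := (n + 1) * N with hr
  have hN' : (1 : ℤ) ≤ N := by exact_mod_cast hN
  have hr1 : 1 ≤ r := by
    rw [hr]
    nlinarith
  obtain ⟨u, hu⟩ := dvd_VV_sub n r
  have h1 : VV (n + 1) r 1 = ((n : ℤ) + 1) * (1 + N * u) := by
    have : VV (n + 1) r 1 = r * u + ((n : ℤ) + 1) := by linear_combination hu
    rw [this, hr]
    ring
  have h2 : ((n : ℤ) + 1) * (r + 1) ≤ VV (n + 1) r 1 := by
    unfold VV
    rw [Finset.sum_range_succ']
    have h3 : 0 ≤ ∑ k ∈ Finset.range n, (vv (n + 1) (k + 1) : ℤ) * r ^ (k + 1) *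
        (r + 1) ^ (n + 1 - 1 - (k + 1)) := by
      apply Finset.sum_nonneg
      intro k _
      positivity
    have h4 : (vv (n + 1) 0 : ℤ) = (n : ℤ) + 1 := by
      unfold vv
      simp
    rw [h4, pow_zero, mul_one]
    have h5 : r + 1 ≤ (r + 1) ^ (n + 1 - 1 - 0) := by
      have h6 : n + 1 - 1 - 0 = (n - 1) + 1 := by omega
      rw [h6, pow_succ]
      have h7 : (1 : ℤ) ≤ (r + 1) ^ (n - 1) := one_le_pow₀ (by omega)
      nlinarith
    have h6 : ((n : ℤ) + 1) * (r + 1) ≤ ((n : ℤ) + 1) * (r + 1) ^ (n + 1 - 1 - 0) :=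
      mul_le_mul_of_nonneg_left h5 (by positivity)
    linarith
  rw [h1] at h2
  have h3 : r + 1 ≤ 1 + N * u := le_of_mul_le_mul_left h2 (by positivity)
  have h4 : (1 + N * u).natAbs ≠ 1 := by omega
  obtain ⟨l, hl, hld⟩ := Nat.exists_prime_and_dvd h4
  have hld' : (l : ℤ) ∣ 1 + N * u := Int.natCast_dvd.mpr hld
  refine ⟨l, hl, ?_, r, ?_⟩
  · intro h5
    have h6 : (l : ℤ) ∣ N * u := Dvd.dvd.mul_right (by exact_mod_cast h5) _
    have h7 : (l : ℤ) ∣ 1 := by
      have h8 := dvd_sub hld' h6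
      rwa [add_sub_cancel_right] at h8
    have h8 : l ∣ 1 := by exact_mod_cast h7
    exact hl.one_lt.ne' (Nat.dvd_one.mp h8)
  · rw [h1]
    exact Dvd.dvd.mul_left hld' _

end Pool.Agent.H81.PHL
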