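import Mathlib
import Pool.Agent.H81.PHL.Root

/-!
# PHL, Units: S-units in prescribed residue classes and of comparable size
-/

set_option autoImplicit false

namespace Pool.Agent.H81.PHL

open Polynomial

lemma unit_approx {l : ℕ} (hl : l.Prime) (h2 : l ≠ 2) {a : ℤ} (ha : ¬ (l : ℤ) ∣ a) {c t : ℤ}
    (hc : ¬ (l : ℤ) ∣ c) (hct : (l : ℤ) ∣ c - t) (e : ℕ) :
    ∃ k : ℕ, (l : ℤ) ^ (e + 1) ∣ c * (1 + l * a) ^ k - t := by
  induction e with
  | zero => exact ⟨0, by simpa using hct⟩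
  | succ e ih =>
    obtain ⟨k, b, hb⟩ := ih
    have hlp : Prime (l : ℤ) := Nat.prime_iff_prime_int.mp hl
    have h3 : 3 ≤ l := by
      have := hl.two_le
      omega
    obtain ⟨y, hy⟩ := ZMod.exists_one_add_mul_pow_prime_pow_eq (R := ℤ) (u := (l : ℤ)) (v := (l : ℤ)) hl
      (dvd_refl _) (by
        have : (l : ℤ) * l * l = (l : ℤ) ^ 3 := by ring
        rw [this]
        exact pow_dvd_pow _ h3) a e
    have hcu : ¬ (l : ℤ) ∣ c * (1 + l * a) ^ k * a := by
      intro h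
      rcases hlp.dvd_or_dvd h with h4 | h4
      · rcases hlp.dvd_or_dvd h4 with h5 | h5
        · exact hc h5
        · have h6 := hlp.dvd_of_dvd_pow h5
          have h7 : (l : ℤ) ∣ 1 := by
            have h8 := dvd_sub h6 (dvd_mul_right (l : ℤ) a)
            rwa [add_sub_cancel_right] at h8
          exact hlp.not_dvd_one h7
      · exact ha h4
    obtain ⟨i, hi⟩ : ∃ i : ℕ, (l : ℤ) ∣ b + c * (1 + l * a) ^ k * a * i := by
      have h4 : IsCoprime (l : ℤ) (c * (1 + l * a) ^ k * a) :=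
        (Prime.coprime_iff_not_dvd hlp).mpr hcu
      obtain ⟨x, z, hxz⟩ := h4
      refine ⟨((-(b * z)) % (l : ℤ)).toNat, ?_⟩
      have hl0 : (l : ℤ) ≠ 0 := by exact_mod_cast hl.ne_zero
      have h5 : ((((-(b * z)) % (l : ℤ)).toNat : ℕ) : ℤ) = (-(b * z)) % (l : ℤ) :=
        Int.toNat_of_nonneg (Int.emod_nonneg _ hl0)
      rw [h5]
      have h6 : (-(b * z)) % (l : ℤ) = -(b * z) - l * ((-(b * z)) / l) := by
        have := Int.emod_add_mul_ediv (-(b * z)) (l : ℤ)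
        linarith
      rw [h6]
      have h7 : b + c * (1 + l * a) ^ k * a * (-(b * z) - l * ((-(b * z)) / l)) =
          (l : ℤ) * (b * x - c * (1 + l * a) ^ k * a * ((-(b * z)) / l)) := by
        linear_combination (-b) * hxz
      rw [h7]
      exact dvd_mul_right _ _
    obtain ⟨m, hm⟩ := powAddExpansion (1 : ℤ) ((l : ℤ) ^ e * l * (a + l * y)) i
    refine ⟨k + l ^ e * i, ?_⟩
    obtain ⟨g, hg⟩ := hi
    have h8 : (1 + (l : ℤ) * a) ^ (k + l ^ e * i) =
        (1 + l * a) ^ k * (1 + i * ((l : ℤ) ^ e * l * (a + l * y)) + m * ((l : ℤ) ^ e * l * (a + l * y)) ^ 2) := by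
      rw [pow_add, pow_mul, hy, hm]
      simp
    refine ⟨g + c * (1 + l * a) ^ k * (i * y + m * (l : ℤ) ^ e * (a + l * y) ^ 2), ?_⟩
    rw [h8]
    have h9 : c * (1 + (l : ℤ) * a) ^ k = l ^ (e + 1) * b + t := by linear_combination hb
    have h10 : b = l * g - c * (1 + l * a) ^ k * a * i := by linear_combination hg
    linear_combination hb + ((l : ℤ) ^ (e + 1)) * h10

/-- A linear congruence. -/
lemma lin_cong {l : ℕ} (hl : l.Prime) {A Bc : ℤ} (hA : ¬ (l : ℤ) ∣ A) :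
    ∃ y : ℕ, (l : ℤ) ∣ A * y - Bc := by
  have hlp : Prime (l : ℤ) := Nat.prime_iff_prime_int.mp hl
  have h4 : IsCoprime (l : ℤ) A := (Prime.coprime_iff_not_dvd hlp).mpr hA
  obtain ⟨x, z, hxz⟩ := h4
  refine ⟨((Bc * z) % (l : ℤ)).toNat, ?_⟩
  have hl0 : (l : ℤ) ≠ 0 := by exact_mod_cast hl.ne_zero
  have h5 : ((((Bc * z) % (l : ℤ)).toNat : ℕ) : ℤ) = (Bc * z) % (l : ℤ) :=
    Int.toNat_of_nonneg (Int.emod_nonneg _ hl0)
  rw [h5]
  have h6 : (Bc * z) % (l : ℤ) = Bc * z - l * ((Bc * z) / l) := by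
    have := Int.emod_add_mul_ediv (Bc * z) (l : ℤ)
    linarith
  rw [h6]
  have h7 : A * (Bc * z - l * ((Bc * z) / l)) - Bc = (l : ℤ) * (-(Bc * x) - A * ((Bc * z) / l)) := by
    linear_combination Bc * hxz
  rw [h7]
  exact dvd_mul_right _ _

/-- Changing the exponent in its class. -/
lemma pow_class {l : ℕ} {u c t : ℤ} (hu : (l : ℤ) ∣ u - 1) {e k k' : ℕ}
    (hk : k' ≡ k [MOD l ^ e]) (h : (l : ℤ) ^ (e + 1) ∣ c * u ^ k - t) :
    (l : ℤ) ^ (e + 1) ∣ c * u ^ k' - t := by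
  have h1 : ((l : ℤ) ^ (e + 1)) ∣ u ^ (l ^ e) - 1 := by
    have := dvd_sub_pow_of_dvd_sub hu e
    rwa [one_pow] at this
  have h2 : ((l : ℤ) ^ (e + 1)) ∣ u ^ k' - u ^ k := by
    have h3 : u ^ (l ^ e) ≡ 1 [ZMOD (l : ℤ) ^ (e + 1)] := (Int.modEq_iff_dvd.mpr h1).symm
    have h4 : ∀ i : ℕ, u ^ (l ^ e * i) ≡ 1 [ZMOD (l : ℤ) ^ (e + 1)] := by
      intro i
      rw [pow_mul]
      have := h3.pow i
      rwa [one_pow] at this
    have h5 : ∀ j : ℕ, u ^ j ≡ u ^ (j % l ^ e) [ZMOD (l : ℤ) ^ (e + 1)] := by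
      intro j
      conv_lhs => rw [← Nat.mod_add_div j (l ^ e), pow_add]
      have := (Int.ModEq.refl (u ^ (j % l ^ e))).mul (h4 (j / l ^ e))
      rwa [mul_one] at this
    have h6 : u ^ k' ≡ u ^ k [ZMOD (l : ℤ) ^ (e + 1)] := by
      have h7 := h5 k'
      have h8 := h5 k
      have h9 : k' % l ^ e = k % l ^ e := hk
      rw [h9] at h7
      exact h7.trans h8.symm
    exact h6.symm.dvd
  have h3 : c * u ^ k' - t = (c * u ^ k - t) + c * (u ^ k' - u ^ k) := by ring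
  rw [h3]
  exact dvd_add h (Dvd.dvd.mul_left h2 _)

/-- Inhomogeneous approximation with nonnegative integers. -/
lemma arch {A D c δ : ℝ} (hA : 0 < A) (hD : 0 < D) (hirr : Irrational (A / D)) (hδ : 0 < δ) :
    ∃ i j : ℕ, 0 < c + i * A - j * D ∧ c + i * A - j * D ≤ δ := by
  obtain ⟨N, hN⟩ := exists_nat_gt (max 1 (D / δ))
  have hN1 : (1 : ℝ) < N := lt_of_le_of_lt (le_max_left _ _) hN
  have hN2 : D / δ < N := lt_of_le_of_lt (le_max_right _ _) hN
  have hN0 : 0 < N := by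
    have : (0 : ℝ) < N := by linarith
    exact_mod_cast this
  obtain ⟨j1, k1, hk1, -, hjk⟩ := Real.exists_int_int_abs_mul_sub_le (A / D) hN0
  set η : ℝ := k1 * A - j1 * D with hη
  have hη' : η = ((k1 : ℝ) * (A / D) - j1) * D := by
    rw [hη]
    field_simp
  have hk1' : (0 : ℝ) < k1 := by exact_mod_cast hk1
  have hη0 : η ≠ 0 := by
    intro h
    apply hirr
    refine ⟨(j1 : ℚ) / k1, ?_⟩
    push_cast
    rw [div_eq_div_iff hk1'.ne' hD.ne']
    linarith
  have habs : |η| ≤ δ := by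
    rw [hη', abs_mul, abs_of_pos hD]
    have h1 : 1 / ((N : ℝ) + 1) * D ≤ δ := by
      rw [div_mul_eq_mul_div, one_mul, div_le_iff₀ (by linarith)]
      rw [div_lt_iff₀ hδ] at hN2
      nlinarith
    exact (mul_le_mul_of_nonneg_right hjk hD.le).trans h1
  have hj1 : 0 ≤ j1 := by
    by_contra hcon
    push Not at hcon
    have h1 : (j1 : ℝ) ≤ -1 := by exact_mod_cast (by omega : j1 ≤ -1)
    have h2 : 0 < (k1 : ℝ) * (A / D) := by positivity
    have h3 := le_abs_self ((k1 : ℝ) * (A / D) - j1)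
    have h4 : 1 / ((N : ℝ) + 1) < 1 := by
      rw [div_lt_one (by linarith)]
      linarith
    linarith
  obtain ⟨K, hK⟩ : ∃ K : ℕ, (K : ℤ) = k1 := ⟨k1.toNat, Int.toNat_of_nonneg hk1.le⟩
  obtain ⟨J, hJ⟩ : ∃ J : ℕ, (J : ℤ) = j1 := ⟨j1.toNat, Int.toNat_of_nonneg hj1⟩
  have hKr : (K : ℝ) = k1 := by exact_mod_cast congrArg (Int.cast (R := ℝ)) hK
  have hJr : (J : ℝ) = j1 := by exact_mod_cast congrArg (Int.cast (R := ℝ)) hJ
  rw [← hKr, ← hJr] at hη
  rcases lt_or_gt_of_ne hη0 with hneg | hpos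
  · -- `η < 0`
    obtain ⟨I, hI⟩ := exists_nat_gt (|c| / A)
    have hc1 : 0 < c + I * A := by
      rw [div_lt_iff₀ hA] at hI
      have := neg_abs_le c
      linarith
    have hη1 : 0 < -η := by linarith
    set q : ℝ := (c + I * A) / (-η) with hq
    have hq0 : 0 < q := div_pos hc1 hη1
    obtain ⟨m, hm⟩ : ∃ m : ℕ, ⌈q⌉₊ = m + 1 :=
      ⟨⌈q⌉₊ - 1, by have := Nat.ceil_pos.mpr hq0; omega⟩
    have h1 : q ≤ m + 1 := by
      have := Nat.le_ceil q
      rw [hm] at this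
      exact_mod_cast this
    have h2 : (m : ℝ) < q := by
      have := Nat.lt_ceil.mp (show m < ⌈q⌉₊ by omega)
      exact this
    have h3 : c + I * A = q * (-η) := by
      rw [hq]
      field_simp
    have h1' := mul_le_mul_of_nonneg_right h1 hη1.le
    have h2' := mul_lt_mul_of_pos_right h2 hη1
    refine ⟨I + m * K, m * J, ?_, ?_⟩
    · push_cast
      nlinarith
    · have := neg_abs_le η
      push_cast
      nlinarith
  · -- `η > 0`
    obtain ⟨I, hI⟩ := exists_nat_gt (|c| / D)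
    have hc1 : 0 < I * D - c := by
      rw [div_lt_iff₀ hD] at hI
      have := le_abs_self c
      linarith
    set q : ℝ := (I * D - c) / η with hq
    have hq0 : 0 < q := div_pos hc1 hpos
    have h1 : (⌊q⌋₊ : ℝ) ≤ q := Nat.floor_le hq0.le
    have h2 : q < ⌊q⌋₊ + 1 := Nat.lt_floor_add_one q
    have h3 : I * D - c = q * η := by
      rw [hq]
      field_simp
    have h1' := mul_le_mul_of_nonneg_right h1 hpos.le
    have h2' := mul_lt_mul_of_pos_right h2 hpos
    refine ⟨(⌊q⌋₊ + 1) * K, (⌊q⌋₊ + 1) * J + I, ?_, ?_⟩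
    · push_cast
      nlinarith
    · have := le_abs_self η
      push_cast
      nlinarith

/-- Logarithms of coprime integers are independent. -/
lemma log_irr {u v : ℕ} (hu : 1 < u) (hv : 1 < v) (h : Nat.Coprime u v) :
    Irrational (Real.log u / Real.log v) := by
  rintro ⟨x, hx⟩
  have hlu : 0 < Real.log u := Real.log_pos (by exact_mod_cast hu)
  have hlv : 0 < Real.log v := Real.log_pos (by exact_mod_cast hv)
  have hx0 : (0 : ℝ) < x := by
    rw [hx]
    exact div_pos hlu hlv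
  have hx1 : 0 < x := by exact_mod_cast hx0
  have hnum : 0 < x.num := Rat.num_pos.mpr hx1
  obtain ⟨m, hm⟩ : ∃ m : ℕ, (m : ℤ) = x.num := ⟨x.num.toNat, Int.toNat_of_nonneg hnum.le⟩
  have hmr : (m : ℝ) = (x.num : ℝ) := by exact_mod_cast congrArg (Int.cast (R := ℝ)) hm
  have hd : (0 : ℝ) < x.den := by exact_mod_cast x.den_pos
  have h1 : (x : ℝ) = (x.num : ℝ) / (x.den : ℝ) := by exact_mod_cast (Rat.num_div_den x).symm
  rw [h1, ← hmr, div_eq_div_iff hd.ne' hlv.ne'] at hx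
  have h2 : Real.log ((u : ℝ) ^ x.den) = Real.log ((v : ℝ) ^ m) := by
    rw [Real.log_pow, Real.log_pow]
    linarith
  have h3 : (u : ℝ) ^ x.den = (v : ℝ) ^ m := by
    apply Real.log_injOn_pos _ _ h2
    · have : (0 : ℝ) < u := by exact_mod_cast (by omega : 0 < u)
      exact pow_pos this _
    · have : (0 : ℝ) < v := by exact_mod_cast (by omega : 0 < v)
      exact pow_pos this _
  have h4 : u ^ x.den = v ^ m := by exact_mod_cast h3
  have h5 : Nat.Coprime (u ^ x.den) (v ^ m) := Nat.Coprime.pow _ _ h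
  rw [← h4, Nat.coprime_self] at h5
  have h6 : u = 1 := by
    have := Nat.one_lt_pow x.den_pos.ne' hu
    omega
  omega

end Pool.Agent.H81.PHL
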