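import Mathlib
import Pool.Agent.H81.PHL.Units

/-!
# PHL, Pairs: pairs with divisible forms
-/

set_option autoImplicit false

namespace Pool.Agent.H81.PHL

open Polynomial

lemma VV_congr (n : ℕ) (p p' q : ℤ) : (p - p') ∣ VV (n + 1) p q - VV (n + 1) p' q := by
  unfold VV
  rw [← Finset.sum_sub_distrib]
  apply Finset.dvd_sum
  intro k _
  have e3 : (vv (n + 1) k : ℤ) * p ^ k * (p + q) ^ (n + 1 - 1 - k) -
      (vv (n + 1) k : ℤ) * p' ^ k * (p' + q) ^ (n + 1 - 1 - k) =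
      (vv (n + 1) k : ℤ) * ((p ^ k - p' ^ k) * (p + q) ^ (n + 1 - 1 - k) +
        p' ^ k * ((p + q) ^ (n + 1 - 1 - k) - (p' + q) ^ (n + 1 - 1 - k))) := by
    ring
  rw [e3]
  apply Dvd.dvd.mul_left
  apply dvd_add
  · exact Dvd.dvd.mul_right (sub_dvd_pow_sub_pow p p' k) _
  · apply Dvd.dvd.mul_left
    have h1 := sub_dvd_pow_sub_pow (p + q) (p' + q) (n + 1 - 1 - k)
    have h2 : (p + q) - (p' + q) = p - p' := by ring
    rwa [h2] at h1

lemma VV_hom (n : ℕ) (q r : ℤ) : VV (n + 1) (q * r) q = q ^ n * VV (n + 1) r 1 := by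
  unfold VV
  rw [Finset.mul_sum]
  apply Finset.sum_congr rfl
  intro k hk
  have hk' : k ≤ n := by have := Finset.mem_range.mp hk; omega
  have e1 : q ^ n = q ^ k * q ^ (n - k) := by
    rw [← pow_add]
    congr 1
    omega
  have e2 : n + 1 - 1 - k = n - k := by omega
  rw [e1, e2]
  have e3 : q * r + q = q * (r + 1) := by ring
  rw [e3, mul_pow, mul_pow]
  ring

/-- The divisibility of the form from the congruence. -/
lemma VV_dvd {n : ℕ} {m p q r : ℤ} (h1 : m ∣ p - q * r) (h2 : m ∣ VV (n + 1) r 1) :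
    m ∣ VV (n + 1) p q := by
  have h3 := h1.trans (VV_congr n p (q * r) q)
  rw [VV_hom] at h3
  have h4 := dvd_add h3 (Dvd.dvd.mul_left h2 (q ^ n))
  rwa [sub_add_cancel] at h4

lemma root_units {n l : ℕ} (hl : l.Prime)
    (h0 : ¬ l ∣ 2 * ((n + 1) * ((n + 2) * T1 n)) * T2 n * Nat.choose (2 * n) n) {r : ℤ}
    (h : (l : ℤ) ∣ VV (n + 1) r 1) :
    ¬ (l : ℤ) ∣ 1 - r ∧ ¬ (l : ℤ) ∣ 1 + r ∧ ¬ (l : ℤ) ∣ r ∧ ¬ (l : ℤ) ∣ (derivative (vp n)).eval r := by
  have hlp : Prime (l : ℤ) := Nat.prime_iff_prime_int.mp hl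
  have h1 : ¬ l ∣ (n + 1) * ((n + 2) * T1 n) := fun h2 =>
    h0 (Dvd.dvd.mul_right (Dvd.dvd.mul_right (Dvd.dvd.mul_left h2 _) _) _)
  have h2 := root_simple hl h1 h
  refine ⟨?_, ?_, h2⟩
  · intro h3
    have h4 := VV_mod_diff n r 1
    rw [one_pow, mul_one] at h4
    have h5 : (l : ℤ) ∣ r - 1 := by
      have := (dvd_neg).mpr h3
      rwa [neg_sub] at this
    have h6 := dvd_sub h (h5.trans h4)
    rw [sub_sub_cancel] at h6
    apply h0
    apply Dvd.dvd.mul_right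
    apply Dvd.dvd.mul_left
    exact_mod_cast h6
  · intro h3
    have h4 := VV_mod_sum n r 1
    rw [add_comm r 1] at h4
    have h6 := dvd_sub h (h3.trans h4)
    rw [sub_sub_cancel] at h6
    rcases hlp.dvd_or_dvd h6 with h7 | h7
    · apply h0
      apply Dvd.dvd.mul_left
      exact_mod_cast h7
    · exact h2.1 (hlp.dvd_of_dvd_pow h7)

/-- At one prime. -/
lemma one_prime {n l : ℕ} (hl : l.Prime) {r0 : ℤ} (hr0 : (l : ℤ) ∣ VV (n + 1) r0 1)
    (hder : ¬ (l : ℤ) ∣ (derivative (vp n)).eval r0) (e : ℕ) :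
    ∃ r : ℤ, (l : ℤ) ∣ r - r0 ∧ (l : ℤ) ^ (e + 1) ∣ VV (n + 1) r 1 := by
  obtain ⟨r, h1, h2⟩ := hensel_int (vp n) hl (r0 := r0) (by rwa [vp_eval]) hder e
  rw [vp_eval] at h2
  exact ⟨r, h1, h2⟩

/-- Pairs `p < q` for which both forms are highly divisible. -/
theorem exists_pairs {n : ℕ} (hn : 1 ≤ n) : ∃ R l1 l2 : ℕ, 0 < R ∧ 1 < l1 ∧ 1 < l2 ∧
    ∀ e : ℕ, ∃ p q : ℕ, 0 < p ∧ p < q ∧ Nat.Coprime p q ∧
      Nat.Coprime (p + q) (Nat.choose (2 * n) n) ∧ Nat.Coprime (q - p) (T2 n) ∧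
      (∀ l : ℕ, l.Prime → l ∣ (q - p) * (p + q) → l ∣ R) ∧
      (l1 : ℤ) ^ (e + 1) ∣ VV (n + 1) p q ∧ (l2 : ℤ) ^ (e + 1) ∣ VV (n + 1) q p ∧
      Real.log ((p + q : ℕ) : ℝ) ≤ Real.log ((q - p : ℕ) : ℝ) + 1 := by
  set N : ℕ := 2 * ((n + 1) * ((n + 2) * T1 n)) * T2 n * Nat.choose (2 * n) n with hN
  have hN0 : 0 < N := by
    have h1 : 0 < Nat.choose (2 * n) n := Nat.choose_pos (by omega)
    have h2 := T2_pos n
    have h3 := T1_pos n
    positivity
  have hN2 : 2 ∣ N := by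
    rw [hN]
    exact Dvd.dvd.mul_right (Dvd.dvd.mul_right (dvd_mul_right _ _) _) _
  have hNC : Nat.choose (2 * n) n ∣ N := dvd_mul_left _ _
  have hNT : T2 n ∣ N := Dvd.dvd.mul_right (dvd_mul_left _ _) _
  obtain ⟨l1, hl1, hl1N, r1, hr1⟩ := exists_prime_root hn hN0
  obtain ⟨l2, hl2, hl2N, r2, hr2⟩ := exists_prime_root hn (Nat.mul_pos hN0 hl1.pos)
  have hl2N' : ¬ l2 ∣ N := fun h => hl2N (Dvd.dvd.mul_right h _)
  have hl21 : ¬ l2 ∣ l1 := fun h => hl2N (Dvd.dvd.mul_left h _)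
  have hl12 : ¬ l1 ∣ l2 := fun h => hl21 (by
    rw [(Nat.prime_dvd_prime_iff_eq hl1 hl2).mp h])
  have h12 : l1 ≠ 2 := fun h => hl1N (by rw [h]; exact hN2)
  have h22 : l2 ≠ 2 := fun h => hl2N' (by rw [h]; exact hN2)
  obtain ⟨a1, b1, c1, d1⟩ := root_units hl1 hl1N hr1
  obtain ⟨a2, b2, c2, d2⟩ := root_units hl2 hl2N' hr2
  have hp1 : Prime (l1 : ℤ) := Nat.prime_iff_prime_int.mp hl1
  have hp2 : Prime (l2 : ℤ) := Nat.prime_iff_prime_int.mp hl2
  have hl1N' : ¬ (l1 : ℤ) ∣ (N : ℤ) := by exact_mod_cast hl1N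
  have hl2N'' : ¬ (l2 : ℤ) ∣ (N : ℤ) := by exact_mod_cast hl2N'
  have hl12' : ¬ (l1 : ℤ) ∣ (l2 : ℤ) := by exact_mod_cast hl12
  have hl21' : ¬ (l2 : ℤ) ∣ (l1 : ℤ) := by exact_mod_cast hl21
  have h2l1 : ¬ (l1 : ℤ) ∣ 2 := by
    intro h
    have h3 : l1 ∣ 2 := by exact_mod_cast h
    exact h12 ((Nat.prime_dvd_prime_iff_eq hl1 Nat.prime_two).mp h3)
  have h2l2 : ¬ (l2 : ℤ) ∣ 2 := by
    intro h
    have h3 : l2 ∣ 2 := by exact_mod_cast h
    exact h22 ((Nat.prime_dvd_prime_iff_eq hl2 Nat.prime_two).mp h3)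
  -- the constant `c0`
  obtain ⟨y1, hy1⟩ := lin_cong hl1 (A := N * l2 * (1 - r1)) (Bc := 2 * r1) (by
    intro h
    rcases hp1.dvd_or_dvd h with h | h
    · rcases hp1.dvd_or_dvd h with h | h
      · exact hl1N' h
      · exact hl12' h
    · exact a1 h)
  obtain ⟨y2, hy2⟩ := lin_cong hl2 (A := N * l1 * (r2 - 1)) (Bc := 2) (by
    intro h
    rcases hp2.dvd_or_dvd h with h | h
    · rcases hp2.dvd_or_dvd h with h | h
      · exact hl2N'' h
      · exact hl21' h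
    · apply a2
      have := (dvd_neg).mpr h
      rwa [neg_sub] at this)
  set c0 : ℕ := 1 + N * (l2 * y1 + l1 * y2) with hc0
  have hc0pos : 0 < c0 := by omega
  have hc01 : (l1 : ℤ) ∣ c0 * (1 - r1) - (1 + r1) := by
    have h1 : (c0 : ℤ) * (1 - r1) - (1 + r1) =
        (N * l2 * (1 - r1) * y1 - 2 * r1) + l1 * (N * y2 * (1 - r1)) := by
      rw [hc0]
      push_cast
      ring
    rw [h1]
    exact dvd_add hy1 (dvd_mul_right _ _)
  have hc02 : (l2 : ℤ) ∣ c0 * (r2 - 1) - (r2 + 1) := by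
    have h1 : (c0 : ℤ) * (r2 - 1) - (r2 + 1) =
        (N * l1 * (r2 - 1) * y2 - 2) + l2 * (N * y1 * (r2 - 1)) := by
      rw [hc0]
      push_cast
      ring
    rw [h1]
    exact dvd_add hy2 (dvd_mul_right _ _)
  set u : ℕ := 1 + N * l1 * l2 with hu
  set v : ℕ := 1 + N * l1 * l2 * c0 * u with hv
  have hll : 0 < N * l1 * l2 := Nat.mul_pos (Nat.mul_pos hN0 hl1.pos) hl2.pos
  have hu1 : 1 < u := by omega
  have hv1 : 1 < v := by
    have : 0 < N * l1 * l2 * c0 * u := by positivity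
    omega
  have hcuv : Nat.Coprime (c0 * u) v := by
    rw [hv, Nat.coprime_comm]
    have h1 : N * l1 * l2 * c0 * u = N * l1 * l2 * (c0 * u) := by ring
    rw [h1]
    simp
  have huv : Nat.Coprime u v := Nat.Coprime.coprime_dvd_left (dvd_mul_left _ _) hcuv
  have hcv : Nat.Coprime c0 v := Nat.Coprime.coprime_dvd_left (dvd_mul_right _ _) hcuv
  have hNc : Nat.Coprime c0 N := by
    rw [hc0]
    simp
  have hNu : Nat.Coprime u N := by
    rw [hu, mul_assoc]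
    simp
  have hNv : Nat.Coprime v N := by
    rw [hv]
    have h1 : N * l1 * l2 * c0 * u = N * (l1 * l2 * c0 * u) := by ring
    rw [h1]
    simp
  refine ⟨c0 * u * v, l1, l2, by positivity, hl1.one_lt, hl2.one_lt, ?_⟩
  intro e
  -- the roots
  obtain ⟨s1, hs1, hs1'⟩ := one_prime hl1 hr1 d1 e
  obtain ⟨s2, hs2, hs2'⟩ := one_prime hl2 hr2 d2 e
  -- the exponents
  have hx1 : ¬ (l1 : ℤ) ∣ (c0 : ℤ) * (1 - s1) := by
    intro h
    have h1 : (c0 : ℤ) * (1 - s1) = (c0 * (1 - r1) - (1 + r1)) + (1 + r1) - c0 * (s1 - r1) := by ring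
    rw [h1] at h
    have h2 := dvd_sub (dvd_add h (Dvd.dvd.mul_left hs1 (c0 : ℤ))) hc01
    rw [sub_add_cancel, add_sub_cancel_left] at h2
    exact b1 h2
  have hx2 : (l1 : ℤ) ∣ (c0 : ℤ) * (1 - s1) - (1 + s1) := by
    have h1 : (c0 : ℤ) * (1 - s1) - (1 + s1) =
        (c0 * (1 - r1) - (1 + r1)) - (c0 + 1) * (s1 - r1) := by ring
    rw [h1]
    exact dvd_sub hc01 (Dvd.dvd.mul_left hs1 _)
  obtain ⟨k1, hk1⟩ := unit_approx hl1 h12 (a := N * l2) (by
    intro h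
    rcases hp1.dvd_or_dvd h with h | h
    · exact hl1N' h
    · exact hl12' h) hx1 hx2 e
  have hx3 : ¬ (l2 : ℤ) ∣ (c0 : ℤ) * (s2 - 1) := by
    intro h
    have h1 : (c0 : ℤ) * (s2 - 1) = (c0 * (r2 - 1) - (r2 + 1)) + (1 + r2) + c0 * (s2 - r2) := by ring
    rw [h1] at h
    have h2 := dvd_sub (dvd_sub h (Dvd.dvd.mul_left hs2 (c0 : ℤ))) hc02
    rw [add_sub_cancel_right, add_sub_cancel_left] at h2
    exact b2 h2
  have hx4 : (l2 : ℤ) ∣ (c0 : ℤ) * (s2 - 1) - (s2 + 1) := by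
    have h1 : (c0 : ℤ) * (s2 - 1) - (s2 + 1) =
        (c0 * (r2 - 1) - (r2 + 1)) + (c0 - 1) * (s2 - r2) := by ring
    rw [h1]
    exact dvd_add hc02 (Dvd.dvd.mul_left hs2 _)
  obtain ⟨k2, hk2⟩ := unit_approx hl2 h22 (a := N * l1) (by
    intro h
    rcases hp2.dvd_or_dvd h with h | h
    · exact hl2N'' h
    · exact hl21' h) hx3 hx4 e
  have hul1 : (1 + (l1 : ℤ) * (N * l2)) = (u : ℤ) := by
    rw [hu]
    push_cast
    ring
  have hul2 : (1 + (l2 : ℤ) * (N * l1)) = (u : ℤ) := by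
    rw [hu]
    push_cast
    ring
  rw [hul1] at hk1
  rw [hul2] at hk2
  have hcop : Nat.Coprime (l1 ^ e) (l2 ^ e) :=
    Nat.Coprime.pow _ _ ((Nat.coprime_primes hl1 hl2).mpr (fun h => hl12 (by rw [h])))
  obtain ⟨k0, hk01, hk02⟩ := Nat.chineseRemainder hcop k1 k2
  set M0 : ℕ := l1 ^ e * l2 ^ e with hM0
  have hM0pos : 0 < M0 := Nat.mul_pos (pow_pos hl1.pos _) (pow_pos hl2.pos _)
  have hM0r : (0 : ℝ) < M0 := by exact_mod_cast hM0pos
  have hlu : 0 < Real.log (u : ℝ) := Real.log_pos (by exact_mod_cast hu1)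
  have hlv : 0 < Real.log (v : ℝ) := Real.log_pos (by exact_mod_cast hv1)
  obtain ⟨i, j, hij1, hij2⟩ := arch (A := M0 * Real.log u) (D := M0 * Real.log v)
    (c := Real.log c0 + k0 * Real.log u) (δ := 1) (by positivity) (by positivity)
    (by
      rw [mul_div_mul_left _ _ hM0r.ne']
      exact log_irr hu1 hv1 huv) one_pos
  set s : ℕ := c0 * u ^ (k0 + M0 * i) with hs
  set d : ℕ := v ^ (M0 * j) with hd
  have hs0 : 0 < s := Nat.mul_pos hc0pos (pow_pos (by omega) _)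
  have hd0 : 0 < d := pow_pos (by omega) _
  have hu0r : (0 : ℝ) < (u : ℝ) := by exact_mod_cast (by omega : 0 < u)
  have hlogs : Real.log (s : ℝ) = Real.log c0 + (k0 + M0 * i) * Real.log u := by
    rw [hs]
    push_cast
    rw [Real.log_mul (by exact_mod_cast hc0pos.ne') (pow_ne_zero _ hu0r.ne'), Real.log_pow]
    push_cast
    ring
  have hlogd : Real.log (d : ℝ) = M0 * j * Real.log v := by
    rw [hd]
    push_cast
    rw [Real.log_pow]
    push_cast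
    ring
  have hds : d < s := by
    have h1 : Real.log (d : ℝ) < Real.log (s : ℝ) := by
      rw [hlogs, hlogd]
      linarith
    have h2 := (Real.log_lt_log_iff (by exact_mod_cast hd0) (by exact_mod_cast hs0)).mp h1
    exact_mod_cast h2
  have hsN : Nat.Coprime s N := by
    rw [hs]
    exact Nat.Coprime.mul_left hNc (Nat.Coprime.pow_left _ hNu)
  have hdN : Nat.Coprime d N := by
    rw [hd]
    exact Nat.Coprime.pow_left _ hNv
  have hsd : Nat.Coprime s d := by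
    rw [hs, hd]
    apply Nat.Coprime.pow_right
    exact Nat.Coprime.mul_left hcv (Nat.Coprime.pow_left _ huv)
  have hsodd : ¬ 2 ∣ s := by
    intro h
    have h1 : 2 ∣ Nat.gcd s N := Nat.dvd_gcd h hN2
    rw [hsN] at h1
    omega
  have hdodd : ¬ 2 ∣ d := by
    intro h
    have h1 : 2 ∣ Nat.gcd d N := Nat.dvd_gcd h hN2
    rw [hdN] at h1
    omega
  obtain ⟨p, hp⟩ : ∃ p : ℕ, s = d + 2 * p := ⟨(s - d) / 2, by omega⟩
  have hp0 : 0 < p := by omega
  have hpqs : p + (p + d) = s := by omega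
  have hqpd : (p + d) - p = d := by omega
  refine ⟨p, p + d, hp0, by omega, ?_, ?_, ?_, ?_, ?_, ?_, ?_⟩
  · rw [Nat.coprime_iff_gcd_eq_one]
    by_contra hne
    obtain ⟨l, hl, hld⟩ := Nat.exists_prime_and_dvd hne
    have h1 : l ∣ p := hld.trans (Nat.gcd_dvd_left _ _)
    have h2 : l ∣ p + d := hld.trans (Nat.gcd_dvd_right _ _)
    have h3 : l ∣ d := (Nat.dvd_add_right h1).mp h2
    have h4 : l ∣ s := by
      rw [← hpqs]
      exact dvd_add h1 h2
    have h5 : l ∣ Nat.gcd s d := Nat.dvd_gcd h4 h3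
    rw [hsd] at h5
    exact hl.one_lt.ne' (Nat.dvd_one.mp h5)
  · rw [hpqs]
    exact Nat.Coprime.coprime_dvd_right hNC hsN
  · rw [hqpd]
    exact Nat.Coprime.coprime_dvd_right hNT hdN
  · intro l hl hld
    rw [hpqs, hqpd] at hld
    rcases (Nat.Prime.dvd_mul hl).mp hld with h | h
    · exact Dvd.dvd.mul_left (hl.dvd_of_dvd_pow h) _
    · rcases (Nat.Prime.dvd_mul hl).mp h with h | h
      · exact Dvd.dvd.mul_right (Dvd.dvd.mul_right h _) _
      · exact Dvd.dvd.mul_right (Dvd.dvd.mul_left (hl.dvd_of_dvd_pow h) _) _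
  · -- the first form
    have hkk : k0 + M0 * i ≡ k1 [MOD l1 ^ e] := by
      have h1 : M0 * i ≡ 0 [MOD l1 ^ e] := by
        apply (Nat.modEq_zero_iff_dvd).mpr
        rw [hM0, mul_assoc]
        exact dvd_mul_right _ _
      exact hk01.add h1
    have hu' : (l1 : ℤ) ∣ (u : ℤ) - 1 := by
      rw [← hul1, add_sub_cancel_left]
      exact dvd_mul_right _ _
    have h1 := pow_class hu' hkk hk1
    have hv' : (l1 : ℤ) ∣ (v : ℤ) - 1 := by
      rw [hv]
      push_cast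
      rw [add_sub_cancel_left]
      exact ⟨N * l2 * c0 * u, by ring⟩
    have h2 : (l1 : ℤ) ^ (e + 1) ∣ (d : ℤ) - 1 := by
      have h3 : M0 * j ≡ 0 [MOD l1 ^ e] := by
        apply (Nat.modEq_zero_iff_dvd).mpr
        rw [hM0, mul_assoc]
        exact dvd_mul_right _ _
      have h4 := pow_class (c := 1) (t := 1) hv' h3 (by simp)
      rw [hd]
      push_cast
      rwa [one_mul] at h4
    have h3 : (l1 : ℤ) ^ (e + 1) ∣ 2 * ((p : ℤ) - (p + d) * s1) := by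
      have h4 : 2 * ((p : ℤ) - (p + d) * s1) =
          (c0 * (1 - s1) * (u : ℤ) ^ (k0 + M0 * i) - (1 + s1)) - ((d : ℤ) - 1) * (1 + s1) := by
        have h5 : (s : ℤ) = d + 2 * p := by exact_mod_cast hp
        have h6 : (s : ℤ) = c0 * (u : ℤ) ^ (k0 + M0 * i) := by
          rw [hs]
          push_cast
          ring
        linear_combination (1 - s1) * h6 - (1 - s1) * h5
      rw [h4]
      exact dvd_sub h1 (Dvd.dvd.mul_right h2 _)
    have h4 : IsCoprime ((l1 : ℤ) ^ (e + 1)) 2 :=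
      ((Prime.coprime_iff_not_dvd hp1).mpr h2l1).pow_left
    have h5 := h4.dvd_of_dvd_mul_left h3
    have h6 := VV_dvd h5 hs1'
    push_cast
    exact h6
  · -- the second form
    have hkk : k0 + M0 * i ≡ k2 [MOD l2 ^ e] := by
      have h1 : M0 * i ≡ 0 [MOD l2 ^ e] := by
        apply (Nat.modEq_zero_iff_dvd).mpr
        rw [hM0, mul_comm (l1 ^ e), mul_assoc]
        exact dvd_mul_right _ _
      exact hk02.add h1
    have hu' : (l2 : ℤ) ∣ (u : ℤ) - 1 := by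
      rw [← hul2, add_sub_cancel_left]
      exact dvd_mul_right _ _
    have h1 := pow_class hu' hkk hk2
    have hv' : (l2 : ℤ) ∣ (v : ℤ) - 1 := by
      rw [hv]
      push_cast
      rw [add_sub_cancel_left]
      exact ⟨N * l1 * c0 * u, by ring⟩
    have h2 : (l2 : ℤ) ^ (e + 1) ∣ (d : ℤ) - 1 := by
      have h3 : M0 * j ≡ 0 [MOD l2 ^ e] := by
        apply (Nat.modEq_zero_iff_dvd).mpr
        rw [hM0, mul_comm (l1 ^ e), mul_assoc]
        exact dvd_mul_right _ _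
      have h4 := pow_class (c := 1) (t := 1) hv' h3 (by simp)
      rw [hd]
      push_cast
      rwa [one_mul] at h4
    have h3 : (l2 : ℤ) ^ (e + 1) ∣ 2 * (((p : ℤ) + d) - p * s2) := by
      have h4 : 2 * (((p : ℤ) + d) - p * s2) =
          -((c0 * (s2 - 1) * (u : ℤ) ^ (k0 + M0 * i) - (s2 + 1)) - ((d : ℤ) - 1) * (s2 + 1)) := by
        have h5 : (s : ℤ) = d + 2 * p := by exact_mod_cast hp
        have h6 : (s : ℤ) = c0 * (u : ℤ) ^ (k0 + M0 * i) := by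
          rw [hs]
          push_cast
          ring
        linear_combination (1 - s2) * h6 - (1 - s2) * h5
      rw [h4]
      exact (dvd_neg).mpr (dvd_sub h1 (Dvd.dvd.mul_right h2 _))
    have h4 : IsCoprime ((l2 : ℤ) ^ (e + 1)) 2 :=
      ((Prime.coprime_iff_not_dvd hp2).mpr h2l2).pow_left
    have h5 := h4.dvd_of_dvd_mul_left h3
    have h6 := VV_dvd h5 hs2'
    push_cast
    exact h6
  · rw [hpqs, hqpd, hlogs, hlogd]
    linarith

end Pool.Agent.H81.PHL
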