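import Mathlib
import Pool.Agent.H81.PHL.Pairs

/-!
# PHL, Bdry: the inequality fails outside the range, the boundary included
-/

set_option autoImplicit false

namespace Pool.Agent.H81.PHL

/-- The gap at the pair, with the common powers moved. -/
lemma pair_gap {n p q w z : ℕ} {α ε : ℝ} (hα : 0 ≤ α) (hε : 0 ≤ ε)
    (hp : 0 < p) (hlt : p < q) (hpq : Nat.Coprime p q)
    (h1 : Nat.Coprime (p + q) (Nat.choose (2 * n) n)) (h2 : Nat.Coprime (q - p) (T2 n))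
    (hw : 0 < w) (hwz : w ≤ z) (hw1 : ((w : ℤ)) ^ (n + 2) ∣ VV (n + 1) p q)
    (hz1 : ((z : ℤ)) ^ (n + 2) ∣ VV (n + 1) q p)
    {R : ℕ} (hrad : ∀ l : ℕ, l.Prime → l ∣ (q - p) * (p + q) → l ∣ R) :
    ∃ x y : ℚ, x ≠ 0 ∧ y ≠ 0 ∧ x * y ^ (n + 2) ≠ 1 ∧ x * y ^ (n + 2) ≠ -1 ∧
      (∀ l : ℕ, l.Prime → l ∣ (x * y ^ (n + 2) + 1).num.natAbs → l ∣ (n + 1) * R) ∧
      Real.log ((q - p : ℕ) : ℝ) + (2 * n + 1) * Real.log ((p + q : ℕ) : ℝ) ≤
        α * (n + 2) * (Real.log (T1 n : ℝ) + n * Real.log ((p + q : ℕ) : ℝ) -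
          (n + 2) * Real.log (w : ℝ)) +
        ε * (n + 2) * (Real.log ((p + q : ℕ) : ℝ) + Real.log (z : ℝ)) +
        gap (n + 2) α ε x y := by
  have hz : 0 < z := by omega
  have hp' : (0:ℤ) < p := by exact_mod_cast hp
  have hq : 0 < q := by omega
  have hq' : (0:ℤ) < q := by exact_mod_cast hq
  set V1 : ℤ := VV (n + 1) p q with hV1
  set V2 : ℤ := VV (n + 1) q p with hV2
  have hV1p : 0 < V1 := VV_pos n hp' hq'
  have hV2p : 0 < V2 := VV_pos n hq' hp'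
  set s : ℕ := p + q with hs
  have hs3 : 3 ≤ s := by omega
  set Z : ℕ := (q - p) * s ^ (2 * n + 1) with hZ
  have hqp : 0 < q - p := by omega
  have hZp : 0 < Z := by positivity
  have hid := ident n p q
  rw [← hV1, ← hV2] at hid
  have hZc : ((n : ℤ) + 1) * ((q:ℤ) - p) * ((p:ℤ) + q) ^ (2 * n + 1) = (((n + 1) * Z : ℕ) : ℤ) := by
    rw [hZ, hs]
    push_cast [Nat.cast_sub hlt.le]
    ring
  rw [hZc] at hid
  obtain ⟨X1, hX1⟩ := hw1
  obtain ⟨X2, hX2⟩ := hz1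
  have hwi : (0 : ℤ) < w := by exact_mod_cast hw
  have hzi : (0 : ℤ) < z := by exact_mod_cast hz
  have hX1p : 0 < X1 := by
    rw [hX1] at hV1p
    exact pos_of_mul_pos_right hV1p (pow_pos hwi _).le
  have hX2p : 0 < X2 := by
    rw [hX2] at hV2p
    exact pos_of_mul_pos_right hV2p (pow_pos hzi _).le
  set x : ℚ := ((-X1 : ℤ) : ℚ) / ((X2 : ℤ) : ℚ) with hx
  set y : ℚ := (((w * q : ℕ) : ℤ) : ℚ) / (((z * p : ℕ) : ℤ) : ℚ) with hy
  have hX1q : (0:ℚ) < X1 := by exact_mod_cast hX1p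
  have hX2q : (0:ℚ) < X2 := by exact_mod_cast hX2p
  have hwq : (0:ℚ) < (w:ℚ) := by exact_mod_cast hw
  have hzq : (0:ℚ) < (z:ℚ) := by exact_mod_cast hz
  have hV1X : (V1 : ℚ) = (w : ℚ) ^ (n + 2) * X1 := by exact_mod_cast congrArg (Int.cast (R := ℚ)) hX1
  have hV2X : (V2 : ℚ) = (z : ℚ) ^ (n + 2) * X2 := by exact_mod_cast congrArg (Int.cast (R := ℚ)) hX2
  have hV1q : (0:ℚ) < V1 := by exact_mod_cast hV1p
  have hV2q : (0:ℚ) < V2 := by exact_mod_cast hV2p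
  have hpq0 : (0:ℚ) < ((p:ℤ):ℚ) := by exact_mod_cast hp'
  have hqq0 : (0:ℚ) < ((q:ℤ):ℚ) := by exact_mod_cast hq'
  have hx0 : x ≠ 0 := by
    rw [hx]
    apply div_ne_zero _ hX2q.ne'
    push_cast
    exact neg_ne_zero.mpr hX1q.ne'
  have hp0q : (0:ℚ) < (p:ℚ) := by exact_mod_cast hp
  have hq0q : (0:ℚ) < (q:ℚ) := by exact_mod_cast hq
  have hy0 : y ≠ 0 := by
    rw [hy]
    push_cast
    exact (div_pos (mul_pos hwq hq0q) (mul_pos hzq hp0q)).ne'
  set r : ℚ := x * y ^ (n + 2) + 1 with hr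
  have hidq : (V1 : ℚ) * ((q:ℤ):ℚ) ^ (n + 2) - (V2 : ℚ) * ((p:ℤ):ℚ) ^ (n + 2) = (((n + 1) * Z : ℕ) : ℚ) := by
    exact_mod_cast hid
  have hrE : r * ((V2 : ℚ) * ((p:ℤ):ℚ) ^ (n + 2)) = -(((n + 1) * Z : ℕ) : ℚ) := by
    rw [← hidq, hr, hx, hy, div_pow, hV1X, hV2X]
    push_cast
    rw [mul_pow, mul_pow]
    field_simp
    ring
  have hcpos : (0:ℚ) < (((n + 1) * Z : ℕ) : ℚ) := by
    exact_mod_cast Nat.mul_pos (Nat.succ_pos n) hZp
  have hr0 : r ≠ 0 := by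
    intro h0
    rw [h0, zero_mul] at hrE
    linarith
  have hnumE : r.num * (V2 * (p:ℤ) ^ (n + 2)) = -(((n + 1) * Z : ℕ) : ℤ) * (r.den : ℤ) := by
    have e1 : (r.num : ℚ) = r * r.den := (Rat.mul_den_eq_num r).symm
    have e2 : (r.num : ℚ) * ((V2 : ℚ) * ((p:ℤ):ℚ) ^ (n + 2)) = -(((n + 1) * Z : ℕ) : ℚ) * (r.den : ℚ) := by
      rw [e1, ← hrE]
      ring
    exact_mod_cast e2
  have hnat : r.num.natAbs * (V2.natAbs * p ^ (n + 2)) = ((n + 1) * Z) * r.den := by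
    have e1 := congrArg Int.natAbs hnumE
    rw [Int.natAbs_mul, Int.natAbs_mul, Int.natAbs_pow, Int.natAbs_natCast, Int.natAbs_mul,
      Int.natAbs_neg, Int.natAbs_natCast, Int.natAbs_natCast] at e1
    exact e1
  have hcop := cop_E hpq hlt h1 h2 (2 * n + 1)
  have hZd : Z ∣ r.num.natAbs := by
    apply Nat.Coprime.dvd_of_dvd_mul_right (k := Z) (n := V2.natAbs * p ^ (n + 2)) hcop
    rw [hnat]
    exact Dvd.dvd.mul_right (dvd_mul_left _ _) _
  have hnum0 : 0 < r.num.natAbs := Int.natAbs_pos.mpr (Rat.num_ne_zero.mpr hr0)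
  have hZle : Z ≤ r.num.natAbs := Nat.le_of_dvd hnum0 hZd
  have hZs : s ≤ Z := by
    calc s ≤ s ^ (2 * n + 1) := Nat.le_self_pow (by omega) s
      _ ≤ Z := Nat.le_mul_of_pos_left _ hqp
  have hnd : r.num.natAbs ∣ (n + 1) * Z := by
    apply Nat.Coprime.dvd_of_dvd_mul_right (k := r.num.natAbs) (n := r.den) r.reduced
    rw [← hnat]
    exact dvd_mul_right _ _
  have hne1 : x * y ^ (n + 2) ≠ 1 := by
    intro h0
    have e1 : r = ((2 : ℤ) : ℚ) := by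
      rw [hr, h0]
      norm_num
    have e2 : r.num = 2 := by
      rw [e1]
      exact Rat.num_intCast 2
    rw [e2] at hZle
    have : (2 : ℤ).natAbs = 2 := rfl
    omega
  have hne2 : x * y ^ (n + 2) ≠ -1 := by
    intro h0
    apply hr0
    rw [hr, h0]
    norm_num
  refine ⟨x, y, hx0, hy0, hne1, hne2, ?_, ?_⟩
  · intro l hl hld
    rcases (Nat.Prime.dvd_mul hl).mp (hld.trans hnd) with h3 | h3
    · exact Dvd.dvd.mul_right h3 _
    · apply Dvd.dvd.mul_left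
      apply hrad l hl
      rcases (Nat.Prime.dvd_mul hl).mp h3 with h4 | h4
      · exact Dvd.dvd.mul_right h4 _
      · exact Dvd.dvd.mul_left (hl.dvd_of_dvd_pow h4) _
  unfold gap
  rw [lhs_eq _ hr0]
  have hlogZ : Real.log ((q - p : ℕ) : ℝ) + (2 * n + 1) * Real.log (s : ℝ) ≤
      Real.log (r.num.natAbs : ℝ) := by
    have e1 : Real.log (Z : ℝ) = Real.log ((q - p : ℕ) : ℝ) + (2 * n + 1) * Real.log (s : ℝ) := by
      rw [hZ, Nat.cast_mul, Nat.cast_pow, Real.log_mul, Real.log_pow]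
      · push_cast
        ring
      · exact_mod_cast hqp.ne'
      · have : (0:ℝ) < s := by exact_mod_cast (by omega : 0 < s)
        positivity
    rw [← e1]
    apply Real.log_le_log
    · exact_mod_cast hZp
    · exact_mod_cast hZle
  have hs0 : (0:ℝ) < s := by exact_mod_cast (by omega : 0 < s)
  have hs1 : (1:ℝ) ≤ s := by exact_mod_cast (by omega : 1 ≤ s)
  have hlogs : 0 ≤ Real.log (s : ℝ) := Real.log_nonneg hs1
  have hw0r : (0:ℝ) < (w:ℝ) := by exact_mod_cast hw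
  have hz0r : (0:ℝ) < (z:ℝ) := by exact_mod_cast hz
  have hhx : Real.log (max |((x.num : ℤ) : ℝ)| ((x.den : ℕ) : ℝ)) ≤
      Real.log (T1 n : ℝ) + n * Real.log (s : ℝ) - (n + 2) * Real.log (w : ℝ) := by
    have hT : (0:ℝ) < (T1 n : ℝ) := by exact_mod_cast T1_pos n
    have e0 : Real.log (T1 n : ℝ) + n * Real.log (s : ℝ) - (n + 2) * Real.log (w : ℝ) =
        Real.log ((T1 n : ℝ) * (s : ℝ) ^ n / (w : ℝ) ^ (n + 2)) := by
      rw [Real.log_div (by positivity) (by positivity), Real.log_mul hT.ne' (by positivity),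
        Real.log_pow, Real.log_pow]
      push_cast
      ring
    rw [e0]
    apply Real.log_le_log
    · have : (0 : ℝ) < x.den := by exact_mod_cast x.den_pos
      exact lt_of_lt_of_le this (le_max_right _ _)
    · apply max_le
      · have e1 : x.num ∣ -X1 := num_dvd' _ hX2p.ne'
        have e2 : |x.num| ≤ X1 := Int.le_of_dvd hX1p ((abs_dvd _ _).mpr ((dvd_neg).mp e1))
        have e3 : V1 ≤ (T1 n : ℤ) * ((s : ℕ) : ℤ) ^ n := by
          have := VV_le n hp' hq'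
          rw [hs]
          push_cast
          exact this
        have e4 : |x.num| * (w : ℤ) ^ (n + 2) ≤ (T1 n : ℤ) * ((s : ℕ) : ℤ) ^ n := by
          calc |x.num| * (w : ℤ) ^ (n + 2) ≤ X1 * (w : ℤ) ^ (n + 2) :=
                mul_le_mul_of_nonneg_right e2 (pow_pos hwi _).le
            _ = V1 := by rw [hX1]; ring
            _ ≤ _ := e3
        rw [le_div_iff₀ (by positivity)]
        exact_mod_cast e4
      · have e1 : ((x.den : ℕ) : ℤ) ∣ X2 := den_dvd' _ _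
        have e2 : ((x.den : ℕ) : ℤ) ≤ X2 := Int.le_of_dvd hX2p e1
        have e3 : V2 ≤ (T1 n : ℤ) * ((s : ℕ) : ℤ) ^ n := by
          have := VV_le n hq' hp'
          rw [hs]
          push_cast
          rw [add_comm (p:ℤ)]
          exact this
        have e5 : (w : ℤ) ^ (n + 2) ≤ (z : ℤ) ^ (n + 2) :=
          pow_le_pow_left₀ hwi.le (by exact_mod_cast hwz) _
        have e4 : ((x.den : ℕ) : ℤ) * (w : ℤ) ^ (n + 2) ≤ (T1 n : ℤ) * ((s : ℕ) : ℤ) ^ n := by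
          calc ((x.den : ℕ) : ℤ) * (w : ℤ) ^ (n + 2) ≤ X2 * (z : ℤ) ^ (n + 2) :=
                mul_le_mul e2 e5 (pow_pos hwi _).le hX2p.le
            _ = V2 := by rw [hX2]; ring
            _ ≤ _ := e3
        rw [le_div_iff₀ (by positivity)]
        exact_mod_cast e4
  have hwq' : (0 : ℤ) < ((w * q : ℕ) : ℤ) := by exact_mod_cast Nat.mul_pos hw hq
  have hzp' : (0 : ℤ) < ((z * p : ℕ) : ℤ) := by exact_mod_cast Nat.mul_pos hz hp
  have hhy : Real.log (max |((y.num : ℤ) : ℝ)| ((y.den : ℕ) : ℝ)) ≤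
      Real.log (s : ℝ) + Real.log (z : ℝ) := by
    rw [← Real.log_mul hs0.ne' hz0r.ne']
    apply Real.log_le_log
    · have : (0 : ℝ) < y.den := by exact_mod_cast y.den_pos
      exact lt_of_lt_of_le this (le_max_right _ _)
    · apply max_le
      · have e1 : y.num ∣ ((w * q : ℕ) : ℤ) := num_dvd' _ hzp'.ne'
        have e2 : |y.num| ≤ ((w * q : ℕ) : ℤ) := Int.le_of_dvd hwq' ((abs_dvd _ _).mpr e1)
        have e3 : ((w * q : ℕ) : ℤ) ≤ ((s * z : ℕ) : ℤ) := by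
          have e4 : w * q ≤ s * z := by
            rw [mul_comm]
            exact Nat.mul_le_mul (by omega) hwz
          exact_mod_cast e4
        have e5 := e2.trans e3
        have e6 : ((|y.num| : ℤ) : ℝ) ≤ (((s * z : ℕ) : ℤ) : ℝ) := by exact_mod_cast e5
        push_cast at e6
        exact e6
      · have e1 : ((y.den : ℕ) : ℤ) ∣ ((z * p : ℕ) : ℤ) := den_dvd' _ _
        have e2 : ((y.den : ℕ) : ℤ) ≤ ((z * p : ℕ) : ℤ) := Int.le_of_dvd hzp' e1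
        have e3 : z * p ≤ s * z := by
          rw [mul_comm]
          exact Nat.mul_le_mul (by omega) (le_refl z)
        have e4 : y.den ≤ z * p := by exact_mod_cast e2
        have e5 : ((y.den : ℕ) : ℝ) ≤ ((s * z : ℕ) : ℝ) := by exact_mod_cast e4.trans e3
        push_cast at e5
        exact e5
  have hn2 : (0:ℝ) ≤ (n:ℝ) + 2 := by positivity
  have t1 := mul_le_mul_of_nonneg_left hhx (mul_nonneg hα hn2)
  have t2 := mul_le_mul_of_nonneg_left hhy (mul_nonneg hε hn2)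
  push_cast
  linarith

lemma tendsto_aux {a K : ℝ} (ha : 0 < a) (M : ℝ) : ∃ t : ℕ, 0 < t ∧ M < a * t - K := by
  obtain ⟨t, ht⟩ := exists_nat_gt (|M + K| / a)
  have h0 : 0 ≤ |M + K| / a := by positivity
  have ht0 : (0:ℝ) < t := lt_of_le_of_lt h0 ht
  refine ⟨t, by exact_mod_cast ht0, ?_⟩
  rw [div_lt_iff₀ ha] at ht
  have := le_abs_self (M + K)
  linarith

/-- `B ≥ 3`: failure, the boundary included, with a fixed set of primes. -/
theorem gap_three (n : ℕ) (hn : 1 ≤ n) : ∃ D : ℕ, 0 < D ∧ ∀ α ε : ℝ, 0 ≤ α → 0 ≤ ε → ε < 1 →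
    α * (n + 2) * n + ε * (n + 2) ≤ 2 * n + 2 → ∀ M : ℝ,
    ∃ x y : ℚ, x ≠ 0 ∧ y ≠ 0 ∧ x * y ^ (n + 2) ≠ 1 ∧ x * y ^ (n + 2) ≠ -1 ∧
      (∀ l : ℕ, l.Prime → l ∣ (x * y ^ (n + 2) + 1).num.natAbs → l ∣ D) ∧
      M < gap (n + 2) α ε x y := by
  obtain ⟨R, l1, l2, hR, hl1, hl2, hpairs⟩ := exists_pairs hn
  refine ⟨(n + 1) * R, Nat.mul_pos (Nat.succ_pos n) hR, ?_⟩
  intro α ε hα hε hε1 hle M
  have hn0 : (0 : ℝ) < n := by exact_mod_cast hn
  have hL1 : 0 < Real.log (l1 : ℝ) := Real.log_pos (by exact_mod_cast hl1)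
  have hL2 : 0 < Real.log (l2 : ℝ) := Real.log_pos (by exact_mod_cast hl2)
  have hT : (0:ℝ) < (T1 n : ℝ) := by exact_mod_cast T1_pos n
  rcases hle.lt_or_eq with hlt | heq
  · -- the strict case
    set g : ℝ := 2 * n + 2 - (α * (n + 2) * n + ε * (n + 2)) with hg
    have hg0 : 0 < g := by linarith
    set K : ℝ := 1 + α * (n + 2) * Real.log (T1 n : ℝ) + g / n * Real.log (T1 n : ℝ) with hK
    obtain ⟨t, ht, htM⟩ := tendsto_aux (a := g / n * Real.log (l1 : ℝ)) (K := K)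
      (mul_pos (div_pos hg0 hn0) hL1) M
    obtain ⟨p, q, hp, hpq, hcop, h1, h2, hrad, hd1, hd2, hlog⟩ := hpairs t
    obtain ⟨x, y, hx, hy, e1, e2, e3, e4⟩ := pair_gap (w := 1) (z := 1) hα hε hp hpq hcop h1 h2
      one_pos le_rfl (by simp) (by simp) hrad
    refine ⟨x, y, hx, hy, e1, e2, e3, ?_⟩
    rw [Nat.cast_one, Real.log_one] at e4
    set S := Real.log ((p + q : ℕ) : ℝ) with hS
    have hS1 : (t : ℝ) * Real.log (l1 : ℝ) ≤ Real.log (T1 n : ℝ) + n * S := by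
      have hp' : (0:ℤ) < p := by exact_mod_cast hp
      have hq' : (0:ℤ) < q := by exact_mod_cast (by omega : 0 < q)
      have f1 := Int.le_of_dvd (VV_pos n hp' hq') hd1
      have f2 := f1.trans (VV_le n hp' hq')
      have f3 : (l1 : ℝ) ^ (t + 1) ≤ (T1 n : ℝ) * ((p + q : ℕ) : ℝ) ^ n := by
        push_cast
        exact_mod_cast f2
      have f4 : Real.log ((l1 : ℝ) ^ (t + 1)) ≤ Real.log ((T1 n : ℝ) * ((p + q : ℕ) : ℝ) ^ n) :=
        Real.log_le_log (by positivity) f3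
      rw [Real.log_pow, Real.log_mul hT.ne' (by positivity), Real.log_pow] at f4
      push_cast at f4
      push_cast at hS
      rw [hS]
      nlinarith
    have hS2 : g / n * Real.log (l1 : ℝ) * t ≤ g / n * Real.log (T1 n : ℝ) + g * S := by
      have f1 := mul_le_mul_of_nonneg_left hS1 (div_pos hg0 hn0).le
      have f2 : g / n * (n * S) = g * S := by
        field_simp
      rw [mul_add, f2] at f1
      linarith
    have hS3 : g * S = (2 * n + 2) * S - (α * (n + 2) * n + ε * (n + 2)) * S := by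
      rw [hg]
      ring
    rw [hK] at htM
    nlinarith
  · -- the boundary
    have hgap : 0 < ((n : ℝ) + 2) * (α * (n + 2) - ε) := by
      have h1 : n * (α * (n + 2) - ε) = (2 * n + 2) * (1 - ε) := by linarith
      have h2 : 0 < (2 * (n : ℝ) + 2) * (1 - ε) := mul_pos (by linarith) (by linarith)
      rw [← h1] at h2
      exact mul_pos (by linarith) (pos_of_mul_pos_right h2 hn0.le)
    set K : ℝ := 1 + α * (n + 2) * Real.log (T1 n : ℝ) + ε * (n + 2) * Real.log (l2 : ℝ) with hK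
    obtain ⟨t, ht, htM⟩ := tendsto_aux (a := ((n : ℝ) + 2) * (α * (n + 2) - ε) * Real.log (l1 : ℝ))
      (K := K) (mul_pos hgap hL1) M
    -- the comparable powers
    obtain ⟨b, hb1, hb2⟩ : ∃ b : ℕ, l1 ^ t ≤ l2 ^ b ∧ l2 ^ b ≤ l2 * l1 ^ t := by
      refine ⟨Nat.clog l2 (l1 ^ t), Nat.le_pow_clog hl2 _, ?_⟩
      have h1 : 1 < l1 ^ t := Nat.one_lt_pow ht.ne' hl1
      have h2 := Nat.pow_pred_clog_lt_self hl2 h1
      have h3 : 0 < Nat.clog l2 (l1 ^ t) := Nat.clog_pos hl2 h1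
      obtain ⟨c, hc⟩ : ∃ c, Nat.clog l2 (l1 ^ t) = c + 1 := ⟨Nat.clog l2 (l1 ^ t) - 1, by omega⟩
      rw [hc] at h2 ⊢
      rw [pow_succ, mul_comm]
      exact Nat.mul_le_mul_left _ h2.le
    obtain ⟨p, q, hp, hpq, hcop, h1, h2, hrad, hd1, hd2, hlog⟩ := hpairs ((n + 2) * (t + b))
    have hw : 0 < l1 ^ t := pow_pos (by omega) _
    have hw1 : (((l1 ^ t : ℕ) : ℤ)) ^ (n + 2) ∣ VV (n + 1) p q := by
      refine dvd_trans ?_ hd1
      push_cast
      rw [← pow_mul]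
      apply pow_dvd_pow
      nlinarith
    have hz1 : (((l2 ^ b : ℕ) : ℤ)) ^ (n + 2) ∣ VV (n + 1) q p := by
      refine dvd_trans ?_ hd2
      push_cast
      rw [← pow_mul]
      apply pow_dvd_pow
      nlinarith
    obtain ⟨x, y, hx, hy, e1, e2, e3, e4⟩ := pair_gap hα hε hp hpq hcop h1 h2 hw hb1 hw1 hz1 hrad
    refine ⟨x, y, hx, hy, e1, e2, e3, ?_⟩
    have hz : Real.log ((l2 ^ b : ℕ) : ℝ) ≤ Real.log (l2 : ℝ) + Real.log ((l1 ^ t : ℕ) : ℝ) := by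
      rw [← Real.log_mul (by positivity) (by positivity)]
      apply Real.log_le_log
      · positivity
      · exact_mod_cast hb2
    have hwlog : Real.log ((l1 ^ t : ℕ) : ℝ) = t * Real.log (l1 : ℝ) := by
      push_cast
      rw [Real.log_pow]
    set S := Real.log ((p + q : ℕ) : ℝ) with hS
    set W := Real.log ((l1 ^ t : ℕ) : ℝ) with hW
    have hz' := mul_le_mul_of_nonneg_left hz (mul_nonneg hε (show (0:ℝ) ≤ (n : ℝ) + 2 by linarith))
    have hmul : (α * (n + 2) * n + ε * (n + 2)) * S = (2 * n + 2) * S := by rw [heq]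
    rw [mul_assoc _ (Real.log (l1 : ℝ)), mul_comm (Real.log (l1 : ℝ)), ← hwlog, hK] at htM
    nlinarith

/-- `B = 2`. -/
theorem gap_two : ∀ α ε : ℝ, 0 ≤ α → 0 ≤ ε → ε < 1 → ∀ M : ℝ,
    ∃ x y : ℚ, x ≠ 0 ∧ y ≠ 0 ∧ x * y ^ 2 ≠ 1 ∧ x * y ^ 2 ≠ -1 ∧
      (∀ l : ℕ, l.Prime → l ∣ (x * y ^ 2 + 1).num.natAbs → l ∣ 15) ∧
      M < gap 2 α ε x y := by
  intro α ε hα hε hε1 M
  have hl3 : 0 < Real.log (3 : ℝ) := Real.log_pos (by norm_num)
  obtain ⟨t, ht, htM⟩ := tendsto_aux (a := 2 * (1 - ε) * Real.log (3 : ℝ)) (K := Real.log 5)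
    (mul_pos (by linarith) hl3) M
  -- `5 ^ b < 3 ^ t ≤ 5 ^ (b + 1)`
  obtain ⟨b, hb1, hb2⟩ : ∃ b : ℕ, 5 ^ b < 3 ^ t ∧ 3 ^ t ≤ 5 * 5 ^ b := by
    have h1 : 1 < 3 ^ t := Nat.one_lt_pow ht.ne' (by norm_num)
    have h2 := Nat.pow_pred_clog_lt_self (b := 5) (by norm_num) h1
    have h3 : 0 < Nat.clog 5 (3 ^ t) := Nat.clog_pos (by norm_num) h1
    have h4 := Nat.le_pow_clog (b := 5) (by norm_num) (3 ^ t)
    obtain ⟨c, hc⟩ : ∃ c, Nat.clog 5 (3 ^ t) = c + 1 := ⟨Nat.clog 5 (3 ^ t) - 1, by omega⟩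
    rw [hc] at h2 h4
    refine ⟨c, h2, ?_⟩
    rw [pow_succ, mul_comm] at h4
    exact h4
  have hs2 : 3 ^ t % 2 = 1 := by
    rw [Nat.pow_mod]
    norm_num
  have hd2 : 5 ^ b % 2 = 1 := by
    rw [Nat.pow_mod]
    norm_num
  obtain ⟨s, hs⟩ : ∃ s : ℕ, s = 3 ^ t := ⟨_, rfl⟩
  obtain ⟨d, hd⟩ : ∃ d : ℕ, d = 5 ^ b := ⟨_, rfl⟩
  rw [← hs, ← hd] at hb1 hb2
  rw [← hs] at hs2
  rw [← hd] at hd2
  obtain ⟨p, hp⟩ : ∃ p : ℕ, s = d + 2 * p := ⟨(s - d) / 2, by omega⟩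
  have hp0 : 0 < p := by omega
  have hpqs : p + (p + d) = s := by omega
  have hqpd : (p + d) - p = d := by omega
  have hsd : Nat.Coprime s d := by
    rw [hs, hd]
    exact Nat.Coprime.pow _ _ (by norm_num)
  have hcop : Nat.Coprime p (p + d) := by
    rw [Nat.coprime_iff_gcd_eq_one]
    by_contra hne
    obtain ⟨l, hl, hld⟩ := Nat.exists_prime_and_dvd hne
    have h1 : l ∣ p := hld.trans (Nat.gcd_dvd_left _ _)
    have h2 : l ∣ p + d := hld.trans (Nat.gcd_dvd_right _ _)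
    have h3 : l ∣ d := (Nat.dvd_add_right h1).mp h2
    have h4 : l ∣ s := by
      rw [← hpqs]
      exact dvd_add h1 h2
    have h5 : l ∣ Nat.gcd s d := Nat.dvd_gcd h4 h3
    rw [hsd] at h5
    exact hl.one_lt.ne' (Nat.dvd_one.mp h5)
  have hT2 : T2 0 = 1 := by decide
  have hT1 : T1 0 = 1 := by decide
  obtain ⟨x, y, hx, hy, e1, e2, e3, e4⟩ := pair_gap (n := 0) (w := 1) (z := 1) (R := 15) hα hε hp0
    (show p < p + d by omega) hcop (by simp) (by rw [hT2]; simp)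
    one_pos le_rfl (by simp) (by simp) (by
      intro l hl hld
      rw [hpqs, hqpd] at hld
      rcases (Nat.Prime.dvd_mul hl).mp hld with h | h
      · rw [hd] at h
        exact (hl.dvd_of_dvd_pow h).trans (by norm_num)
      · rw [hs] at h
        exact (hl.dvd_of_dvd_pow h).trans (by norm_num))
  refine ⟨x, y, hx, hy, e1, e2, ?_, ?_⟩
  · intro l hl hld
    have := e3 l hl hld
    simpa using this
  · rw [hpqs, hqpd, hT1] at e4
    simp only [Nat.cast_one, Real.log_one, Nat.cast_zero, zero_mul, mul_zero, add_zero, zero_add,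
      sub_zero, one_mul] at e4
    have hs0 : (0:ℝ) < s := by exact_mod_cast (by omega : 0 < s)
    have hd0 : (0:ℝ) < d := by exact_mod_cast (by omega : 0 < d)
    have h1 : Real.log (s : ℝ) ≤ Real.log 5 + Real.log (d : ℝ) := by
      rw [← Real.log_mul (by norm_num) hd0.ne']
      apply Real.log_le_log hs0
      exact_mod_cast hb2
    have h2 : Real.log (s : ℝ) = t * Real.log 3 := by
      rw [hs]
      push_cast
      rw [Real.log_pow]
    have h3 : 2 * (1 - ε) * Real.log 3 * t = 2 * (1 - ε) * Real.log (s : ℝ) := by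
      rw [h2]
      ring
    rw [h3] at htM
    linarith

/-- `B = 1`. -/
theorem gap_one : ∀ α ε : ℝ, 0 ≤ α → 0 ≤ ε → ε < 1 → ∀ M : ℝ,
    ∃ x y : ℚ, x ≠ 0 ∧ y ≠ 0 ∧ x * y ^ 1 ≠ 1 ∧ x * y ^ 1 ≠ -1 ∧
      (∀ l : ℕ, l.Prime → l ∣ (x * y ^ 1 + 1).num.natAbs → l ∣ 2) ∧
      M < gap 1 α ε x y := by
  intro α ε hα hε hε1 M
  have hl2 := Real.log_pos (show (1:ℝ) < 2 by norm_num)
  obtain ⟨t, ht, htM⟩ := tendsto_aux (a := (1 - ε) * Real.log (2 : ℝ)) (K := 0)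
    (mul_pos (by linarith) hl2) M
  set u : ℕ := 2 ^ (t + 1) with hu
  have hu4 : 4 ≤ u := by
    calc 4 = 2 ^ 2 := by norm_num
      _ ≤ 2 ^ (t + 1) := Nat.pow_le_pow_right (by norm_num) (by omega)
  set y : ℚ := (((u : ℤ) - 1 : ℤ) : ℚ) with hy
  have huq : (4:ℚ) ≤ (u:ℚ) := by exact_mod_cast hu4
  have hyv : y = (u:ℚ) - 1 := by rw [hy]; push_cast; rfl
  have hy1 : (1:ℚ) * y ^ 1 + 1 = ((u : ℤ) : ℚ) := by rw [hyv]; push_cast; ring
  have hne : (1:ℚ) * y ^ 1 + 1 ≠ 0 := by rw [hy1]; push_cast; linarith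
  refine ⟨1, y, one_ne_zero, by rw [hyv]; linarith, by rw [hyv]; intro h0; linarith,
      by rw [hyv]; intro h0; linarith, ?_, ?_⟩
  · rw [hy1, Rat.num_intCast, Int.natAbs_natCast]
    intro l hl hld
    exact hl.dvd_of_dvd_pow hld
  · unfold gap
    rw [lhs_eq _ hne, hy1, Rat.num_intCast, Int.natAbs_natCast]
    have hyn : y.num = (u : ℤ) - 1 := by rw [hy]; exact Rat.num_intCast _
    have hyd : y.den = 1 := by rw [hy]; exact Rat.den_intCast _
    rw [hyn, hyd]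
    have e1 : Real.log (max |(((1:ℚ).num : ℤ) : ℝ)| (((1:ℚ).den : ℕ) : ℝ)) = 0 := by simp
    rw [e1]
    have e2 : Real.log (u : ℝ) = (t + 1) * Real.log 2 := by
      rw [hu, Nat.cast_pow, Real.log_pow]
      push_cast
      ring
    have hur : (4:ℝ) ≤ (u:ℝ) := by exact_mod_cast hu4
    have e3 : Real.log (max |(((u : ℤ) - 1 : ℤ) : ℝ)| ((1 : ℕ) : ℝ)) ≤ Real.log (u : ℝ) := by
      push_cast
      rw [abs_of_nonneg (by linarith), max_eq_left (by linarith)]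
      exact Real.log_le_log (by linarith) (by linarith)
    have e4 : ε * Real.log (max |(((u : ℤ) - 1 : ℤ) : ℝ)| ((1 : ℕ) : ℝ)) ≤ ε * Real.log (u : ℝ) :=
      mul_le_mul_of_nonneg_left e3 hε
    have e5 : 0 ≤ (1 - ε) * Real.log 2 := mul_nonneg (by linarith) hl2.le
    rw [e2] at e4 ⊢
    push_cast at e4 ⊢
    nlinarith

/-- All `B`: failure outside the range, the boundary included, with a fixed set of primes. -/
theorem gap_all (B : ℕ) (hB : 0 < B) : ∃ D : ℕ, 0 < D ∧ ∀ α ε : ℝ, 0 ≤ α → 0 ≤ ε → ε < 1 →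
    (B ≤ 2 ∨ α * (B - 2) + ε ≤ 2 - 2 / B) → ∀ M : ℝ,
    ∃ x y : ℚ, x ≠ 0 ∧ y ≠ 0 ∧ x * y ^ B ≠ 1 ∧ x * y ^ B ≠ -1 ∧
      (∀ l : ℕ, l.Prime → l ∣ (x * y ^ B + 1).num.natAbs → l ∣ D) ∧
      M < gap B α ε x y := by
  by_cases h1 : B = 1
  · subst h1
    exact ⟨2, by norm_num, fun α ε hα hε hε1 _ M => gap_one α ε hα hε hε1 M⟩
  by_cases h2 : B = 2
  · subst h2
    exact ⟨15, by norm_num, fun α ε hα hε hε1 _ M => gap_two α ε hα hε hε1 M⟩
  obtain ⟨n, rfl⟩ : ∃ n, B = n + 2 := ⟨B - 2, by omega⟩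
  obtain ⟨D, hD, h⟩ := gap_three n (by omega)
  refine ⟨D, hD, ?_⟩
  intro α ε hα hε hε1 hle M
  have h5 : α * ((n + 2 : ℕ) - 2) + ε ≤ 2 - 2 / ((n + 2 : ℕ) : ℝ) := by
    rcases hle with h3 | h3
    · omega
    · exact h3
  apply h α ε hα hε hε1 _ M
  push_cast at h5
  have hB0 : (0:ℝ) < (n:ℝ) + 2 := by positivity
  have h6 : ((n:ℝ) + 2) * (α * ((n:ℝ) + 2 - 2) + ε) ≤ ((n:ℝ) + 2) * (2 - 2 / ((n:ℝ) + 2)) :=
    mul_le_mul_of_nonneg_left h5 hB0.le
  have h7 : ((n:ℝ) + 2) * (2 - 2 / ((n:ℝ) + 2)) = 2 * n + 2 := by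
    field_simp
    ring
  rw [h7] at h6
  linarith

end Pool.Agent.H81.PHL
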