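import Mathlib
import Pool.Agent.H81.PHL.Base

/-!
# PHL, Pos: the inequality from abc
-/

set_option autoImplicit false

namespace Pool.Agent.H81.PHL

/-- The linear programme. -/
lemma lp {B κ α ε k r h H U V A C G1 G2 : ℝ} (hκ : 1 ≤ κ) (hB : 2 * κ < B) (hε : 0 ≤ ε)
    (hε1 : ε ≤ 1) (hpar : (1 - ε) * B * (2 * κ - 1) ≤ (α * B - 1) * (B - 2 * κ))
    (hU : 0 ≤ U) (hV : 0 ≤ V) (hA : 0 ≤ A) (hG1 : 0 ≤ G1) (hG2 : 0 ≤ G2)
    (hr : 0 ≤ r) (hk : 0 ≤ k) (hH : 0 ≤ H)
    (h1 : U + G1 ≤ h) (h2 : V + G2 ≤ h) (h3 : A ≤ H)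
    (h4 : U + B * A - G2 ≤ k + κ * (r + U + A + V + C))
    (h5 : V + B * C - G1 ≤ U + B * A - G2) :
    U + B * A - G2 ≤ α * B * h + ε * B * H + (α * B - 1) * r + B * k / (B - 2 * κ) := by
  have hB0 : 0 < B := by linarith
  have hg : 0 < B - 2 * κ := by linarith
  have hh : 0 ≤ h := by linarith
  -- bound for A
  have hC : B * C ≤ B * A + U - G2 - V + G1 := by linarith
  have e1 : B * ((B - 2 * κ) * A) ≤ B * (k + κ * r + (2 * κ - 1) * h) := by
    have e2 : B * (U + B * A - G2) ≤ B * (k + κ * (r + U + A + V)) + κ * (B * C) := by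
      have := mul_le_mul_of_nonneg_left h4 hB0.le
      linarith
    have e3 : κ * (B * C) ≤ κ * (B * A + U - G2 - V + G1) :=
      mul_le_mul_of_nonneg_left hC (by linarith)
    -- B*(B-2κ)A ≤ B k + B κ r + (B(κ-1)+κ) U + κ(B-1) V + (B-κ) G2 + κ G1
    have e4 : B * ((B - 2 * κ) * A) ≤ B * k + B * κ * r + (B * (κ - 1) + κ) * U + κ * (B - 1) * V +
        (B - κ) * G2 + κ * G1 := by nlinarith
    have e5 : κ * G1 ≤ (B * (κ - 1) + κ) * G1 := by
      apply mul_le_mul_of_nonneg_right _ hG1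
      nlinarith
    have e6 : (B - κ) * G2 ≤ κ * (B - 1) * G2 := by
      apply mul_le_mul_of_nonneg_right _ hG2
      nlinarith
    have e7 : (B * (κ - 1) + κ) * (U + G1) ≤ (B * (κ - 1) + κ) * h := by
      apply mul_le_mul_of_nonneg_left h1
      nlinarith
    have e8 : κ * (B - 1) * (V + G2) ≤ κ * (B - 1) * h := by
      apply mul_le_mul_of_nonneg_left h2
      have : 0 ≤ B - 1 := by linarith
      positivity
    nlinarith
  have hAle : (B - 2 * κ) * A ≤ k + κ * r + (2 * κ - 1) * h := le_of_mul_le_mul_left e1 hB0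
  -- the objective
  have e2 : U + B * A - G2 ≤ h + (1 - ε) * B * A + ε * B * H := by
    have : ε * B * A ≤ ε * B * H := mul_le_mul_of_nonneg_left h3 (by positivity)
    nlinarith
  have e3 : (1 - ε) * B * A ≤ (α * B - 1) * (h + r) + B * k / (B - 2 * κ) := by
    have f1 : (1 - ε) * B * ((B - 2 * κ) * A) ≤
        (1 - ε) * B * (k + κ * r + (2 * κ - 1) * h) :=
      mul_le_mul_of_nonneg_left hAle (mul_nonneg (by linarith) hB0.le)
    have f2 : (1 - ε) * B * (κ * r) ≤ (1 - ε) * B * (2 * κ - 1) * r := by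
      have : κ * r ≤ (2 * κ - 1) * r := mul_le_mul_of_nonneg_right (by linarith) hr
      have h0 : 0 ≤ (1 - ε) * B := mul_nonneg (by linarith) hB0.le
      nlinarith
    have f3 : (1 - ε) * B * (2 * κ - 1) * (h + r) ≤ (α * B - 1) * (B - 2 * κ) * (h + r) :=
      mul_le_mul_of_nonneg_right hpar (by linarith)
    have f4 : (1 - ε) * B * k ≤ B * k := by
      have : (1 - ε) * (B * k) ≤ 1 * (B * k) :=
        mul_le_mul_of_nonneg_right (by linarith) (by positivity)
      linarith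
    have f5 : (B - 2 * κ) * ((1 - ε) * B * A) ≤
        (B - 2 * κ) * ((α * B - 1) * (h + r) + B * k / (B - 2 * κ)) := by
      have f6 : (B - 2 * κ) * (B * k / (B - 2 * κ)) = B * k := by
        field_simp
      rw [mul_add, f6]
      nlinarith
    exact le_of_mul_le_mul_left f5 hg
  nlinarith

/-- The lowest terms of `x y^B`. -/
lemma decomp (x y : ℚ) (hx : x ≠ 0) (hy : y ≠ 0) (B : ℕ) :
    ∃ u v a' b' g1 g2 : ℕ, 0 < u ∧ 0 < v ∧ 0 < a' ∧ 0 < b' ∧ 0 < g1 ∧ 0 < g2 ∧
      u * g1 = x.num.natAbs ∧ v * g2 = x.den ∧ a' * g2 = y.num.natAbs ^ B ∧ b' * g1 = y.den ^ B ∧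
      (x * y ^ B).num.natAbs = u * a' ∧ (x * y ^ B).den = v * b' := by
  set u0 := x.num.natAbs with hu0
  set v0 := x.den with hv0
  set a0 := y.num.natAbs with ha0
  set b0 := y.den with hb0
  have hu0p : 0 < u0 := Int.natAbs_pos.2 (Rat.num_ne_zero.2 hx)
  have ha0p : 0 < a0 := Int.natAbs_pos.2 (Rat.num_ne_zero.2 hy)
  have hv0p : 0 < v0 := x.den_pos
  have hb0p : 0 < b0 := y.den_pos
  have hab : Nat.Coprime (a0 ^ B) (b0 ^ B) := Nat.Coprime.pow _ _ y.reduced
  have huv : Nat.Coprime u0 v0 := x.reduced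
  set g1 := Nat.gcd u0 (b0 ^ B) with hg1
  set g2 := Nat.gcd v0 (a0 ^ B) with hg2
  have hg1p : 0 < g1 := Nat.gcd_pos_of_pos_left _ hu0p
  have hg2p : 0 < g2 := Nat.gcd_pos_of_pos_left _ hv0p
  have e1 : u0 / g1 * g1 = u0 := Nat.div_mul_cancel (Nat.gcd_dvd_left _ _)
  have e2 : v0 / g2 * g2 = v0 := Nat.div_mul_cancel (Nat.gcd_dvd_left _ _)
  have e3 : a0 ^ B / g2 * g2 = a0 ^ B := Nat.div_mul_cancel (Nat.gcd_dvd_right _ _)
  have e4 : b0 ^ B / g1 * g1 = b0 ^ B := Nat.div_mul_cancel (Nat.gcd_dvd_right _ _)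
  have c1 : Nat.Coprime (u0 / g1) (b0 ^ B / g1) := Nat.coprime_div_gcd_div_gcd hg1p
  have c2 : Nat.Coprime (v0 / g2) (a0 ^ B / g2) := Nat.coprime_div_gcd_div_gcd hg2p
  have c3 : Nat.Coprime (u0 / g1) (v0 / g2) :=
    Nat.Coprime.coprime_dvd_left (Dvd.intro _ e1) (Nat.Coprime.coprime_dvd_right (Dvd.intro _ e2) huv)
  have c4 : Nat.Coprime (a0 ^ B / g2) (b0 ^ B / g1) :=
    Nat.Coprime.coprime_dvd_left (Dvd.intro _ e3) (Nat.Coprime.coprime_dvd_right (Dvd.intro _ e4) hab)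
  have p1 : 0 < u0 / g1 := Nat.pos_of_ne_zero (by intro h; rw [h] at e1; omega)
  have p2 : 0 < v0 / g2 := Nat.pos_of_ne_zero (by intro h; rw [h] at e2; omega)
  have ha0B : 0 < a0 ^ B := Nat.pow_pos ha0p
  have hb0B : 0 < b0 ^ B := Nat.pow_pos hb0p
  have p3 : 0 < a0 ^ B / g2 := Nat.pos_of_ne_zero (by intro h; rw [h] at e3; omega)
  have p4 : 0 < b0 ^ B / g1 := Nat.pos_of_ne_zero (by intro h; rw [h] at e4; omega)
  set A := u0 / g1 * (a0 ^ B / g2) with hA
  set D := v0 / g2 * (b0 ^ B / g1) with hD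
  have hcop : Nat.Coprime A D :=
    Nat.Coprime.mul_left (Nat.Coprime.mul_right c3 c1) (Nat.Coprime.mul_right c2.symm c4)
  have hDp : 0 < D := Nat.mul_pos p2 p4
  have habs : |x * y ^ B| = ((A : ℤ) : ℚ) / ((D : ℤ) : ℚ) := by
    have hxa : |x| = (u0 : ℚ) / (v0 : ℚ) := by
      rw [hu0, hv0, Nat.cast_natAbs, Int.cast_abs, ← abs_of_pos (show (0:ℚ) < (x.den : ℚ) by exact_mod_cast x.den_pos),
        ← abs_div, Rat.num_div_den]
    have hya : |y| = (a0 : ℚ) / (b0 : ℚ) := by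
      rw [ha0, hb0, Nat.cast_natAbs, Int.cast_abs, ← abs_of_pos (show (0:ℚ) < (y.den : ℚ) by exact_mod_cast y.den_pos),
        ← abs_div, Rat.num_div_den]
    rw [abs_mul, abs_pow, hxa, hya, div_pow, div_mul_div_comm]
    have q1 : (u0 : ℚ) * (a0 : ℚ) ^ B = (A : ℚ) * ((g1 : ℚ) * g2) := by
      have : u0 * a0 ^ B = A * (g1 * g2) := by
        rw [hA]
        calc u0 * a0 ^ B = (u0 / g1 * g1) * (a0 ^ B / g2 * g2) := by rw [e1, e3]
          _ = _ := by ring
      exact_mod_cast this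
    have q2 : (v0 : ℚ) * (b0 : ℚ) ^ B = (D : ℚ) * ((g1 : ℚ) * g2) := by
      have : v0 * b0 ^ B = D * (g1 * g2) := by
        rw [hD]
        calc v0 * b0 ^ B = (v0 / g2 * g2) * (b0 ^ B / g1 * g1) := by rw [e2, e4]
          _ = _ := by ring
      exact_mod_cast this
    have hgq : ((g1 : ℚ) * g2) ≠ 0 := by positivity
    rw [q1, q2, mul_div_mul_right _ _ hgq]
    push_cast
    rfl
  have hnum : |x * y ^ B|.num = (A : ℤ) := by
    rw [habs]
    exact Rat.num_div_eq_of_coprime (by exact_mod_cast hDp) (by simpa using hcop)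
  have hden : (|x * y ^ B|.den : ℤ) = (D : ℤ) := by
    rw [habs]
    exact Rat.den_div_eq_of_coprime (by exact_mod_cast hDp) (by simpa using hcop)
  refine ⟨u0 / g1, v0 / g2, a0 ^ B / g2, b0 ^ B / g1, g1, g2, p1, p2, p3, p4, hg1p, hg2p, e1, e2,
    e3, e4, ?_, ?_⟩
  · rcases abs_choice (x * y ^ B) with h | h
    · rw [h] at hnum
      rw [hnum]
      rfl
    · rw [h, Rat.num_neg_eq_neg_num] at hnum
      rw [← Int.natAbs_neg, hnum]
      rfl
  · rcases abs_choice (x * y ^ B) with h | h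
    · rw [h] at hden
      exact_mod_cast hden
    · rw [h, Rat.den_neg_eq_den] at hden
      exact_mod_cast hden

/-- The triple attached to `z` and `z + 1`. -/
lemma triple (z : ℚ) (hz : z ≠ 0) (hw : z + 1 ≠ 0) :
    ∃ a b : ℕ, 0 < a ∧ 0 < b ∧ Nat.Coprime a b ∧
      a * b * (a + b) = (z + 1).num.natAbs * z.num.natAbs * z.den ∧
      (z + 1).num.natAbs ≤ a + b ∧ z.num.natAbs ≤ a + b ∧ z.den ≤ a + b ∧
      (z + 1).num.natAbs ≤ z.num.natAbs + z.den := by
  obtain ⟨hnum, hden⟩ := num_den_add_one z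
  set n := (z + 1).num.natAbs with hn
  have hn0 : 0 < n := Int.natAbs_pos.2 (Rat.num_ne_zero.2 hw)
  set a := z.num.natAbs with ha
  have ha0 : 0 < a := Int.natAbs_pos.2 (Rat.num_ne_zero.2 hz)
  set d := z.den with hd
  have hd0 : 0 < d := z.den_pos
  have hcad : Nat.Coprime a d := z.reduced
  have hcnd : Nat.Coprime n d := by
    have := (z + 1).reduced
    rw [hden] at this
    exact this
  have hca : (a : ℤ) = |z.num| := by rw [ha]; exact Int.natCast_natAbs _
  have hcn : (n : ℤ) = |(z + 1).num| := by rw [hn]; exact Int.natCast_natAbs _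
  rcases lt_or_gt_of_ne (Rat.num_ne_zero.2 hz) with hneg | hpos
  · rcases lt_or_gt_of_ne (Rat.num_ne_zero.2 hw) with hneg' | hpos'
    · have hsum : n + d = a := by
        have : (n : ℤ) + d = a := by
          rw [hca, hcn, abs_of_neg hneg, abs_of_neg hneg', hnum]; ring
        exact_mod_cast this
      refine ⟨n, d, hn0, hd0, hcnd, ?_, by omega, by omega, by omega, by omega⟩
      rw [hsum]
      ring
    · have hsum : n + a = d := by
        have : (n : ℤ) + a = d := by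
          rw [hca, hcn, abs_of_neg hneg, abs_of_pos hpos', hnum]; ring
        exact_mod_cast this
      have hcna : Nat.Coprime n a := by
        have h1 : Nat.Coprime n d := hcnd
        rw [← hsum] at h1
        simpa using h1
      refine ⟨n, a, hn0, ha0, hcna, ?_, by omega, by omega, by omega, by omega⟩
      rw [hsum]
  · have hpos' : 0 < (z + 1).num := by
      rw [hnum]; positivity
    have hsum : a + d = n := by
      have : (a : ℤ) + d = n := by
        rw [hca, hcn, abs_of_pos hpos, abs_of_pos hpos', hnum]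
      exact_mod_cast this
    refine ⟨a, d, ha0, hd0, hcad, ?_, by omega, by omega, by omega, by omega⟩
    rw [hsum]
    ring

/-- abc with exponent `κ` gives the inequality in an explicit range. -/
theorem holds_of_abc {κ : ℝ} (hκ : 1 ≤ κ) (habc : AbcExp κ) {B : ℕ} {α ε : ℝ}
    (hε : 0 ≤ ε) (hε1 : ε ≤ 1) (hB : 2 * κ < B)
    (hpar : (1 - ε) * B * (2 * κ - 1) ≤ (α * B - 1) * (B - 2 * κ)) :
    ∃ β : ℝ, 0 ≤ β ∧ Holds B α β ε := by
  obtain ⟨K0, hK0⟩ := habc
  set K := max K0 1 with hK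
  have hK1 : 1 ≤ K := le_max_right _ _
  set k := Real.log K with hk
  have hk0 : 0 ≤ k := Real.log_nonneg hK1
  have hg : 0 < (B:ℝ) - 2 * κ := by linarith
  have hB0 : (0:ℝ) < B := by linarith
  have hB1 : (1:ℝ) ≤ B := by linarith
  have hαB : 1 ≤ α * B := by
    by_contra hcon
    push Not at hcon
    have h1 : (α * B - 1) * ((B:ℝ) - 2 * κ) < 0 := mul_neg_of_neg_of_pos (by linarith) hg
    have h2 : 0 ≤ (1 - ε) * B * (2 * κ - 1) :=
      mul_nonneg (mul_nonneg (by linarith) hB0.le) (by linarith)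
    linarith
  have hl2 : 0 < Real.log 2 := Real.log_pos (by norm_num)
  set β : ℝ := Real.log 2 + B * k / (B - 2 * κ) with hβ
  have hβ0 : 0 ≤ β := by positivity
  refine ⟨β, hβ0, ?_⟩
  intro x y hx hy _ hz2
  set z := x * y ^ B with hz
  have hz0 : z ≠ 0 := mul_ne_zero hx (pow_ne_zero _ hy)
  have hw0 : z + 1 ≠ 0 := by
    intro hcontra; apply hz2; linarith
  rw [lhs_eq _ hw0, ← log_rad]
  obtain ⟨a, b, ha, hb, hab, hprod, hle1, hle2, hle3, hle4⟩ := triple z hz0 hw0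
  obtain ⟨u, v, a', b', g1, g2, hu, hv, ha', hb', hg1, hg2, eu, ev, ea, eb, ez, ed⟩ :=
    decomp x y hx hy B
  rw [← hz] at ez ed
  set n := (z + 1).num.natAbs with hn
  have hn0 : 0 < n := Int.natAbs_pos.2 (Rat.num_ne_zero.2 hw0)
  have hxn0 : 0 < x.num.natAbs := Int.natAbs_pos.2 (Rat.num_ne_zero.2 hx)
  have hyn0 : 0 < y.num.natAbs := Int.natAbs_pos.2 (Rat.num_ne_zero.2 hy)
  have hxa : |((x.num : ℤ) : ℝ)| = (x.num.natAbs : ℝ) := by
    rw [Nat.cast_natAbs]; push_cast; rfl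
  have hya : |((y.num : ℤ) : ℝ)| = (y.num.natAbs : ℝ) := by
    rw [Nat.cast_natAbs]; push_cast; rfl
  rw [hxa, hya]
  set hX := Real.log (max (x.num.natAbs : ℝ) (x.den : ℝ)) with hhX
  set hY := Real.log (max (y.num.natAbs : ℝ) (y.den : ℝ)) with hhY
  have hxn1 : (1 : ℝ) ≤ (x.num.natAbs : ℝ) := by exact_mod_cast hxn0
  have hyn1 : (1 : ℝ) ≤ (y.num.natAbs : ℝ) := by exact_mod_cast hyn0
  have hxd1 : (1 : ℝ) ≤ (x.den : ℝ) := by exact_mod_cast x.den_pos
  have hyd1 : (1 : ℝ) ≤ (y.den : ℝ) := by exact_mod_cast y.den_pos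
  have hX1 : Real.log (x.num.natAbs : ℝ) ≤ hX := Real.log_le_log (by linarith) (le_max_left _ _)
  have hX2 : Real.log (x.den : ℝ) ≤ hX := Real.log_le_log (by linarith) (le_max_right _ _)
  have hY1 : Real.log (y.num.natAbs : ℝ) ≤ hY := Real.log_le_log (by linarith) (le_max_left _ _)
  have hY2 : Real.log (y.den : ℝ) ≤ hY := Real.log_le_log (by linarith) (le_max_right _ _)
  have hY0 : 0 ≤ hY := (Real.log_nonneg hyn1).trans hY1
  -- logarithms
  have pos : ∀ m : ℕ, 0 < m → (0:ℝ) < (m:ℝ) := fun m hm => by exact_mod_cast hm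
  have lnn : ∀ m : ℕ, 0 < m → 0 ≤ Real.log (m:ℝ) := fun m hm =>
    Real.log_nonneg (by exact_mod_cast hm)
  have eU : Real.log (u:ℝ) + Real.log (g1:ℝ) = Real.log (x.num.natAbs : ℝ) := by
    rw [← Real.log_mul (pos u hu).ne' (pos g1 hg1).ne', ← Nat.cast_mul, eu]
  have eV : Real.log (v:ℝ) + Real.log (g2:ℝ) = Real.log (x.den : ℝ) := by
    rw [← Real.log_mul (pos v hv).ne' (pos g2 hg2).ne', ← Nat.cast_mul, ev]
  have eA : Real.log (a':ℝ) + Real.log (g2:ℝ) = B * Real.log (y.num.natAbs : ℝ) := by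
    rw [← Real.log_mul (pos a' ha').ne' (pos g2 hg2).ne', ← Nat.cast_mul, ea, Nat.cast_pow,
      Real.log_pow]
  have eB : Real.log (b':ℝ) + Real.log (g1:ℝ) = B * Real.log (y.den : ℝ) := by
    rw [← Real.log_mul (pos b' hb').ne' (pos g1 hg1).ne', ← Nat.cast_mul, eb, Nat.cast_pow,
      Real.log_pow]
  have eZ : Real.log (z.num.natAbs : ℝ) = Real.log (u:ℝ) + Real.log (a':ℝ) := by
    rw [ez, Nat.cast_mul, Real.log_mul (pos u hu).ne' (pos a' ha').ne']
  have eD : Real.log (z.den : ℝ) = Real.log (v:ℝ) + Real.log (b':ℝ) := by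
    rw [ed, Nat.cast_mul, Real.log_mul (pos v hv).ne' (pos b' hb').ne']
  -- the radical
  set r := Real.log (rad n : ℝ) with hr
  have hr0 : 0 ≤ r := lnn _ (rad_pos n)
  have hraddvd : rad (n * z.num.natAbs * z.den) ∣
      rad n * ((u * y.num.natAbs) * (v * y.den)) := by
    apply rad_dvd
    intro p hp hpd
    rcases (Nat.Prime.dvd_mul hp).1 hpd with h1 | h1
    · rcases (Nat.Prime.dvd_mul hp).1 h1 with h2 | h2
      · exact Dvd.dvd.mul_right (dvd_rad hn0.ne' hp h2) _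
      · apply Dvd.dvd.mul_left
        apply Dvd.dvd.mul_right
        rw [ez] at h2
        rcases (Nat.Prime.dvd_mul hp).1 h2 with h3 | h3
        · exact Dvd.dvd.mul_right h3 _
        · apply Dvd.dvd.mul_left
          have h4 : p ∣ y.num.natAbs ^ B := by rw [← ea]; exact Dvd.dvd.mul_right h3 _
          exact hp.dvd_of_dvd_pow h4
    · apply Dvd.dvd.mul_left
      apply Dvd.dvd.mul_left
      rw [ed] at h1
      rcases (Nat.Prime.dvd_mul hp).1 h1 with h3 | h3
      · exact Dvd.dvd.mul_right h3 _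
      · apply Dvd.dvd.mul_left
        have h4 : p ∣ y.den ^ B := by rw [← eb]; exact Dvd.dvd.mul_right h3 _
        exact hp.dvd_of_dvd_pow h4
  have hradle : Real.log (rad (n * z.num.natAbs * z.den) : ℝ) ≤
      r + Real.log (u:ℝ) + Real.log (y.num.natAbs : ℝ) + Real.log (v:ℝ) + Real.log (y.den : ℝ) := by
    have h1 : rad (n * z.num.natAbs * z.den) ≤ rad n * ((u * y.num.natAbs) * (v * y.den)) := by
      apply Nat.le_of_dvd _ hraddvd
      have := rad_pos n
      have h4 := y.den_pos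
      positivity
    have h2 : (rad (n * z.num.natAbs * z.den) : ℝ) ≤
        (rad n : ℝ) * (((u : ℝ) * (y.num.natAbs : ℝ)) * ((v : ℝ) * (y.den : ℝ))) := by
      exact_mod_cast h1
    have h0 : (0 : ℝ) < (rad (n * z.num.natAbs * z.den) : ℝ) := by exact_mod_cast rad_pos _
    have h3 := Real.log_le_log h0 h2
    have g1' : (rad n : ℝ) ≠ 0 := (pos _ (rad_pos n)).ne'
    have g2' : (u : ℝ) ≠ 0 := (pos u hu).ne'
    have g3' : (y.num.natAbs : ℝ) ≠ 0 := by linarith
    have g4' : (v : ℝ) ≠ 0 := (pos v hv).ne'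
    have g5' : (y.den : ℝ) ≠ 0 := by linarith
    rw [Real.log_mul g1' (by positivity), Real.log_mul (by positivity) (by positivity),
      Real.log_mul g2' g3', Real.log_mul g4' g5'] at h3
    linarith
  have hmax : Real.log ((a + b : ℕ) : ℝ) ≤ k + κ * (r + Real.log (u:ℝ) +
      Real.log (y.num.natAbs : ℝ) + Real.log (v:ℝ) + Real.log (y.den : ℝ)) := by
    have h1 : ((a + b : ℕ) : ℝ) ≤ K0 * (rad (a * b * (a + b)) : ℝ) ^ κ := hK0 a b ha hb hab
    rw [hprod] at h1
    set R : ℝ := (rad (n * z.num.natAbs * z.den) : ℝ) with hR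
    have hR0 : 0 < R := by rw [hR]; exact_mod_cast rad_pos _
    have h2 : K0 * R ^ κ ≤ K * R ^ κ :=
      mul_le_mul_of_nonneg_right (le_max_left _ _) (Real.rpow_nonneg hR0.le _)
    have hpos : (0 : ℝ) < ((a + b : ℕ) : ℝ) := by positivity
    have h3 : Real.log ((a + b : ℕ) : ℝ) ≤ k + κ * Real.log R := by
      calc Real.log ((a + b : ℕ) : ℝ) ≤ Real.log (K * R ^ κ) := Real.log_le_log hpos (h1.trans h2)
        _ = k + κ * Real.log R := by
            rw [Real.log_mul (by linarith) (Real.rpow_pos_of_pos hR0 _).ne', Real.log_rpow hR0]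
    have h4 := mul_le_mul_of_nonneg_left hradle (show (0:ℝ) ≤ κ by linarith)
    linarith
  have m1 : Real.log (z.num.natAbs : ℝ) ≤ Real.log ((a + b : ℕ) : ℝ) := by
    apply Real.log_le_log
    · exact pos _ (Int.natAbs_pos.2 (Rat.num_ne_zero.2 hz0))
    · exact_mod_cast hle2
  have m2 : Real.log (z.den : ℝ) ≤ Real.log ((a + b : ℕ) : ℝ) := by
    apply Real.log_le_log
    · exact pos _ z.den_pos
    · exact_mod_cast hle3
  set U := Real.log (u:ℝ) with hU
  set V := Real.log (v:ℝ) with hV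
  set A := Real.log (y.num.natAbs : ℝ) with hA
  set C := Real.log (y.den : ℝ) with hC
  set G1 := Real.log (g1:ℝ) with hG1
  set G2 := Real.log (g2:ℝ) with hG2
  have hU0 := lnn u hu
  have hV0 := lnn v hv
  have hA0 := lnn _ hyn0
  have hC0 := lnn _ y.den_pos
  have hG10 := lnn g1 hg1
  have hG20 := lnn g2 hg2
  have n1 : Real.log (z.num.natAbs : ℝ) = U + B * A - G2 := by linarith
  have n2 : Real.log (z.den : ℝ) = V + B * C - G1 := by linarith
  have hn1 : Real.log (n : ℝ) ≤ Real.log 2 + max (U + B * A - G2) (V + B * C - G1) := by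
    rw [← n1, ← n2]
    have h1 : (n : ℝ) ≤ 2 * max (z.num.natAbs : ℝ) (z.den : ℝ) := by
      have h2 : (n : ℝ) ≤ (z.num.natAbs : ℝ) + (z.den : ℝ) := by exact_mod_cast hle4
      have h3 := le_max_left (z.num.natAbs : ℝ) (z.den : ℝ)
      have h4 := le_max_right (z.num.natAbs : ℝ) (z.den : ℝ)
      linarith
    have h0 : (0:ℝ) < (z.num.natAbs : ℝ) := pos _ (Int.natAbs_pos.2 (Rat.num_ne_zero.2 hz0))
    have h00 : (0:ℝ) < (z.den : ℝ) := pos _ z.den_pos
    have h5 : Real.log (n : ℝ) ≤ Real.log 2 + Real.log (max (z.num.natAbs : ℝ) (z.den : ℝ)) := by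
      rw [← Real.log_mul (by norm_num) (lt_max_of_lt_left h0).ne']
      exact Real.log_le_log (pos n hn0) h1
    refine h5.trans ?_
    rcases max_choice (z.num.natAbs : ℝ) (z.den : ℝ) with h6 | h6
    · rw [h6]
      have := le_max_left (Real.log (z.num.natAbs : ℝ)) (Real.log (z.den : ℝ))
      linarith
    · rw [h6]
      have := le_max_right (Real.log (z.num.natAbs : ℝ)) (Real.log (z.den : ℝ))
      linarith
  have hX0 : 0 ≤ hX := (lnn _ hxn0).trans hX1
  have hbound : max (U + B * A - G2) (V + B * C - G1) ≤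
      α * B * hX + ε * B * hY + (α * B - 1) * r + B * k / (B - 2 * κ) := by
    rcases le_total (V + B * C - G1) (U + B * A - G2) with hc | hc
    · rw [max_eq_left hc]
      exact lp hκ hB hε hε1 hpar hU0 hV0 hA0 hG10 hG20 hr0 hk0 hY0 (by linarith) (by linarith)
        (by linarith) (by linarith) hc
    · rw [max_eq_right hc]
      refine lp (A := C) (C := A) (U := V) (V := U) (G1 := G2) (G2 := G1) hκ hB hε hε1 hpar hV0 hU0
        hC0 hG20 hG10 hr0 hk0 hY0 (by linarith) (by linarith) (by linarith) ?_ hc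
      have e1 : r + U + A + V + C = r + V + C + U + A := by ring
      rw [e1] at hmax
      linarith
  have hM1 : 1 ≤ (B:ℝ) * (α * B + ε) := by nlinarith
  have hM2 : α * B - 1 ≤ (B:ℝ) * (α * B + ε) := by nlinarith
  have f1 : β ≤ (B:ℝ) * (α * B + ε) * β := le_mul_of_one_le_left hβ0 hM1
  have f2 : (α * B - 1) * r ≤ (B:ℝ) * (α * B + ε) * r := mul_le_mul_of_nonneg_right hM2 hr0
  have f3 : (B:ℝ) * (α * B + ε) * (β + r) = (B:ℝ) * (α * B + ε) * β + (B:ℝ) * (α * B + ε) * r := by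
    ring
  rw [f3]
  rw [hβ] at f1 ⊢
  linarith

end Pool.Agent.H81.PHL
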