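import Mathlib
import Pool.Agent.H81.PHL.Neg
import Pool.Agent.H81.PHL.Pos

/-!
# PHL, Range: the range of the parameters
-/

set_option autoImplicit false

open Filter Topology

namespace Pool.Agent.H81.PHL

/-- Failure outside the range, with any coefficient of the radical. -/
theorem not_ineq (B : ℕ) (α ε : ℝ) (hα : 0 ≤ α) (hε : 0 ≤ ε)
    (h : B = 1 ∧ ε < 1 ∨ 2 ≤ B ∧ α * (B - 2) + ε < 2 - 2 / B) (M : ℝ) :
    ∃ x y : ℚ, x ≠ 0 ∧ y ≠ 0 ∧ x * y ^ B ≠ 1 ∧ x * y ^ B ≠ -1 ∧ ¬ Ineq B α ε M x y := by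
  by_contra hcon
  push Not at hcon
  have hcon' : ∀ x y : ℚ, x ≠ 0 → y ≠ 0 → x * y ^ B ≠ 1 → x * y ^ B ≠ -1 → Ineq B α ε |M| x y :=
    fun x y h1 h2 h3 h4 => (hcon x y h1 h2 h3 h4).mono (le_abs_self M)
  rcases h with ⟨rfl, h1⟩ | ⟨hB, h1⟩
  · exact neg_one hε h1 hcon'
  · obtain ⟨n, rfl⟩ : ∃ n, B = n + 2 := ⟨B - 2, by omega⟩
    apply neg_two n hα hε _ (abs_nonneg M) hcon'
    push_cast at h1
    have hB0 : (0:ℝ) < (n:ℝ) + 2 := by positivity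
    have h2 : ((n:ℝ) + 2) * (α * ((n:ℝ) + 2 - 2) + ε) < ((n:ℝ) + 2) * (2 - 2 / ((n:ℝ) + 2)) :=
      mul_lt_mul_of_pos_left h1 hB0
    have h3 : ((n:ℝ) + 2) * (2 - 2 / ((n:ℝ) + 2)) = 2 * n + 2 := by
      field_simp
      ring
    rw [h3] at h2
    linarith

/-- Failure outside the range. -/
theorem not_holds (B : ℕ) (α ε : ℝ) (hα : 0 ≤ α) (hε : 0 ≤ ε)
    (h : B = 1 ∧ ε < 1 ∨ 2 ≤ B ∧ α * (B - 2) + ε < 2 - 2 / B) (β : ℝ) : ¬ Holds B α β ε := by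
  intro hH
  obtain ⟨x, y, h1, h2, h3, h4, h5⟩ := not_ineq B α ε hα hε h
    ((B : ℝ) * (α * (B : ℝ) + ε) * max β 1)
  apply h5
  have h6 := hH x y h1 h2 h3 h4
  unfold Ineq
  refine h6.trans ?_
  have h0 : 0 ≤ ∑ p ∈ (x * y ^ B + 1).num.natAbs.primeFactors, Real.log (p : ℝ) := by
    apply Finset.sum_nonneg
    intro p hp
    apply Real.log_nonneg
    exact_mod_cast (Nat.prime_of_mem_primeFactors hp).one_le
  set S := ∑ p ∈ (x * y ^ B + 1).num.natAbs.primeFactors, Real.log (p : ℝ)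
  have h7 : 0 ≤ (B : ℝ) * (α * (B : ℝ) + ε) := by positivity
  have h8 : β + S ≤ max β 1 * (1 + S) := by
    have h9 := le_max_left β 1
    have h10 := le_max_right β 1
    nlinarith
  have h11 := mul_le_mul_of_nonneg_left h8 h7
  linarith

/-- abc gives the inequality inside the range. -/
theorem holds_of_full_abc (habc : ∀ κ : ℝ, 1 < κ → AbcExp κ) (B : ℕ) (hB : 3 ≤ B) (α ε : ℝ)
    (hε : 0 ≤ ε) (hε1 : ε ≤ 1) (h : 2 - 2 / B < α * (B - 2) + ε) :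
    ∃ β : ℝ, 0 ≤ β ∧ Holds B α β ε := by
  have hB3 : (3:ℝ) ≤ B := by exact_mod_cast hB
  have hB0 : (0:ℝ) < B := by linarith
  have h1 : (1 - ε) * B * (2 * 1 - 1) < (α * B - 1) * (B - 2 * 1) := by
    have h2 : (B:ℝ) * (2 - 2 / B) < B * (α * (B - 2) + ε) := mul_lt_mul_of_pos_left h hB0
    have h3 : (B:ℝ) * (2 - 2 / B) = 2 * B - 2 := by
      field_simp
    rw [h3] at h2
    linarith
  have c1 : Continuous fun κ : ℝ => (1 - ε) * B * (2 * κ - 1) := by fun_prop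
  have c2 : Continuous fun κ : ℝ => (α * B - 1) * ((B:ℝ) - 2 * κ) := by fun_prop
  have c3 : Continuous fun κ : ℝ => 2 * κ := by fun_prop
  have e1 := (c1.tendsto 1).eventually_lt (c2.tendsto 1) h1
  have e2 := (c3.tendsto 1).eventually (gt_mem_nhds (show 2 * (1:ℝ) < B by linarith))
  have e3 : ∀ᶠ κ : ℝ in 𝓝[>] 1, 1 < κ := self_mem_nhdsWithin
  have e4 : ∀ᶠ κ : ℝ in 𝓝[>] 1, (1 - ε) * B * (2 * κ - 1) < (α * B - 1) * ((B:ℝ) - 2 * κ) :=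
    e1.filter_mono nhdsWithin_le_nhds
  have e5 : ∀ᶠ κ : ℝ in 𝓝[>] 1, 2 * κ < (B:ℝ) := e2.filter_mono nhdsWithin_le_nhds
  obtain ⟨κ, hκ1, hκ2, hκ3⟩ := (e4.and (e5.and e3)).exists
  exact holds_of_abc hκ3.le (habc κ hκ3) hε hε1 hκ2 hκ1.le

end Pool.Agent.H81.PHL
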