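import Mathlib
import Pool.Agent.H81.PHL.Range
import Pool.Agent.H81.PHL.Bdry

/-!
# PHL, Exact: the exact range of the parameters
-/

set_option autoImplicit false

namespace Pool.Agent.H81.PHL

/-- Failure outside the range, the boundary included. -/
theorem not_holds_of_le (B : ℕ) (α ε : ℝ) (hB0 : 0 < B) (hα : 0 ≤ α) (hε : 0 ≤ ε) (hε1 : ε < 1)
    (h : B ≤ 2 ∨ α * (B - 2) + ε ≤ 2 - 2 / B) (β : ℝ) : ¬ Holds B α β ε := by
  intro hH
  obtain ⟨D, hD, hgap⟩ := gap_all B hB0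
  obtain ⟨x, y, h1, h2, h3, h4, h5, h6⟩ := hgap α ε hα hε hε1 h
    ((B : ℝ) * (α * (B : ℝ) + ε) * (β + Real.log (D : ℝ)))
  have h7 := hH x y h1 h2 h3 h4
  have h8 : ∑ p ∈ (x * y ^ B + 1).num.natAbs.primeFactors, Real.log (p : ℝ) ≤ Real.log (D : ℝ) := by
    rw [← log_rad]
    apply Real.log_le_log
    · exact_mod_cast rad_pos _
    · have e1 : rad (x * y ^ B + 1).num.natAbs ∣ D := rad_dvd h5
      exact_mod_cast Nat.le_of_dvd hD e1
  have h9 : 0 ≤ (B : ℝ) * (α * (B : ℝ) + ε) := by positivity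
  have h10 := mul_le_mul_of_nonneg_left h8 h9
  unfold gap at h6
  linarith

/-- The exact range under abc. -/
theorem holds_iff (habc : ∀ κ : ℝ, 1 < κ → AbcExp κ) (B : ℕ) (hB : 0 < B) (α ε : ℝ) (hα : 0 ≤ α)
    (hε : 0 ≤ ε) (hε1 : ε < 1) :
    (∃ β : ℝ, 0 ≤ β ∧ Holds B α β ε) ↔ 3 ≤ B ∧ 2 - 2 / B < α * (B - 2) + ε := by
  constructor
  · rintro ⟨β, -, h⟩
    by_contra hcon
    apply not_holds_of_le B α ε hB hα hε hε1 _ β h
    by_cases h1 : B ≤ 2
    · exact Or.inl h1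
    · right
      by_contra h2
      push Not at h2
      exact hcon ⟨by omega, h2⟩
  · rintro ⟨h1, h2⟩
    exact holds_of_full_abc habc B h1 α ε hε hε1.le h2

/-- The exact range of Q1 under abc. -/
theorem holds_iff_Q1 (habc : ∀ κ : ℝ, 1 < κ → AbcExp κ) (B : ℕ) (hB : 0 < B) (α ε : ℝ) (hα : 1 ≤ α)
    (hε : 0 < ε) (hε1 : ε < 1 / 2) :
    (∃ β : ℝ, 0 ≤ β ∧ Holds B α β ε) ↔ 4 ≤ B ∨ B = 3 ∧ 4 / 3 < α + ε := by
  rw [holds_iff habc B hB α ε (by linarith) hε.le (by linarith)]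
  constructor
  · rintro ⟨h1, h2⟩
    by_cases h3 : B = 3
    · right
      refine ⟨h3, ?_⟩
      rw [h3] at h2
      push_cast at h2
      linarith
    · left
      omega
  · rintro (h1 | ⟨h1, h2⟩)
    · refine ⟨by omega, ?_⟩
      have hB4 : (4:ℝ) ≤ B := by exact_mod_cast h1
      have h3 : (0:ℝ) < 2 / B := by positivity
      nlinarith
    · refine ⟨by omega, ?_⟩
      rw [h1]
      push_cast
      linarith

end Pool.Agent.H81.PHL
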